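import Mathlib

set_option autoImplicit false

/-!
Second moment: in a finite space of functions, many have no zero.
-/

namespace Pool.Agent.TH838.DS

open Finset

section

variable {p : ℕ} [Fact p.Prime] {A : Type} [AddCommGroup A] [Module (ZMod p) A] [Finite A]

theorem ker_le (l : A →ₗ[ZMod p] ZMod p) (h : l ≠ 0) :
    Nat.card {a // l a = 0} * p ≤ Nat.card A := by
  obtain ⟨v, hv⟩ : ∃ v, l v ≠ 0 := by
    by_contra hcon
    push Not at hcon
    exact h (LinearMap.ext hcon)
  have h1 : Nat.card ({a // l a = 0} × ZMod p) ≤ Nat.card A := by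
    apply Nat.card_le_card_of_injective (fun q : {a // l a = 0} × ZMod p => (q.1 : A) + q.2 • v)
    rintro ⟨⟨a, ha⟩, s⟩ ⟨⟨b, hb⟩, t⟩ hab
    simp only at hab
    have h2 := congrArg l hab
    rw [map_add, map_add, map_smul, map_smul, ha, hb, zero_add, zero_add, smul_eq_mul,
      smul_eq_mul] at h2
    have h3 := mul_right_cancel₀ hv h2
    subst h3
    have h4 := add_right_cancel hab
    subst h4
    rfl
  rwa [Nat.card_prod, Nat.card_zmod] at h1

theorem ker2_ge (l l' : A →ₗ[ZMod p] ZMod p) :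
    Nat.card A ≤ Nat.card {a // l a = 0 ∧ l' a = 0} * p ^ 2 := by
  classical
  let f : A → ZMod p × ZMod p := fun a => (l a, l' a)
  let r : ZMod p × ZMod p → A := fun y => if h : ∃ a, f a = y then h.choose else 0
  have hr : ∀ a, f (r (f a)) = f a := by
    intro a
    have h : ∃ b, f b = f a := ⟨a, rfl⟩
    simp only [r, dif_pos h]
    exact h.choose_spec
  have hr1 : ∀ a, l (a - r (f a)) = 0 ∧ l' (a - r (f a)) = 0 := by
    intro a
    have h1 := hr a
    have h2 : l (r (f a)) = l a := congrArg Prod.fst h1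
    have h3 : l' (r (f a)) = l' a := congrArg Prod.snd h1
    rw [map_sub, map_sub, h2, h3, sub_self, sub_self]
    exact ⟨rfl, rfl⟩
  have h1 : Nat.card A ≤ Nat.card ({a // l a = 0 ∧ l' a = 0} × (ZMod p × ZMod p)) := by
    apply Nat.card_le_card_of_injective
      (fun a : A => ((⟨a - r (f a), hr1 a⟩ : {a // l a = 0 ∧ l' a = 0}), f a))
    intro a b hab
    simp only [Prod.mk.injEq, Subtype.mk.injEq] at hab
    obtain ⟨h2, h3⟩ := hab
    rw [h3] at h2
    exact sub_left_injective h2
  rw [Nat.card_prod, Nat.card_prod, Nat.card_zmod] at h1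
  nlinarith [h1]

/-- Most functions of a linear system without base points, with few zeros each, have no zero with
positive probability. -/
theorem count_lin {Ω : Type} [Fintype Ω] (l : Ω → A →ₗ[ZMod p] ZMod p) (hl : ∀ x, l x ≠ 0)
    (K : Set A) (m : ℕ) (hm : 1 ≤ m)
    (hZ : ∀ a, a ∉ K → Nat.card {x // l x a = 0} ≤ m) (n : ℝ) (hn : (Fintype.card Ω : ℝ) = n)
    (hn1 : 1 ≤ n) :
    (Nat.card A : ℝ) - n * ((Nat.card A : ℝ) / p) +
      n * (n - 1) * ((Nat.card A : ℝ) / (p : ℝ) ^ 2 - Nat.card K) / m ≤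
      Nat.card {a // ∀ x, l x a ≠ 0} := by
  classical
  haveI : Fintype A := Fintype.ofFinite A
  have hp : (0 : ℝ) < p := by exact_mod_cast (Fact.out : p.Prime).pos
  have hm0 : (0 : ℝ) < m := by exact_mod_cast hm
  let Z : A → ℕ := fun a => (univ.filter fun x => l x a = 0).card
  have hZe : ∀ a, Nat.card {x // l x a = 0} = Z a := by
    intro a
    rw [Nat.card_eq_fintype_card, Fintype.card_subtype]
  have hN : (Nat.card {a // ∀ x, l x a ≠ 0} : ℝ) = ∑ a : A, (if Z a = 0 then (1 : ℝ) else 0) := by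
    rw [Nat.card_eq_fintype_card, Fintype.card_subtype, Finset.sum_boole]
    congr 2
    ext a
    simp only [mem_filter, mem_univ, true_and, Z, card_eq_zero, filter_eq_empty_iff,
      forall_true_left]
  have hpt : ∀ a : A, (1 : ℝ) - Z a + (if a ∈ K then 0 else (Z a : ℝ) * (Z a - 1) / m) ≤
      (if Z a = 0 then (1 : ℝ) else 0) := by
    intro a
    rcases Nat.eq_zero_or_pos (Z a) with h0 | h0
    · rw [h0]
      simp
    · have h1 : (1 : ℝ) ≤ Z a := by exact_mod_cast h0
      rw [if_neg h0.ne']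
      split_ifs with hK
      · linarith
      · have h2 : (Z a : ℝ) ≤ m := by
          rw [← hZe a]
          exact_mod_cast hZ a hK
        have h3 : (Z a : ℝ) * (Z a - 1) / m ≤ Z a - 1 := by
          rw [div_le_iff₀ hm0]
          nlinarith
        linarith
  have hs1 : ∑ a : A, (Z a : ℝ) ≤ n * ((Nat.card A : ℝ) / p) := by
    have h1 : ∑ a : A, (Z a : ℝ) = ∑ x : Ω, (Nat.card {a // l x a = 0} : ℝ) := by
      have h2 : ∀ a, (Z a : ℝ) = ∑ x : Ω, (if l x a = 0 then (1 : ℝ) else 0) := by
        intro a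
        rw [Finset.sum_boole]
      simp only [h2]
      rw [Finset.sum_comm]
      refine Finset.sum_congr rfl fun x _ => ?_
      rw [Nat.card_eq_fintype_card, Fintype.card_subtype, Finset.sum_boole]
    rw [h1]
    have h3 : ∀ x ∈ (univ : Finset Ω), (Nat.card {a // l x a = 0} : ℝ) ≤ (Nat.card A : ℝ) / p := by
      intro x _
      rw [le_div_iff₀ hp]
      exact_mod_cast ker_le (l x) (hl x)
    refine (Finset.sum_le_sum h3).trans ?_
    rw [Finset.sum_const, card_univ, nsmul_eq_mul, hn]
  have hs2 : n * (n - 1) * ((Nat.card A : ℝ) / (p : ℝ) ^ 2) ≤ ∑ a : A, (Z a : ℝ) * (Z a - 1) := by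
    have h2 : ∀ a, (Z a : ℝ) * (Z a - 1) =
        ∑ q ∈ (univ : Finset Ω).offDiag, (if l q.1 a = 0 ∧ l q.2 a = 0 then (1 : ℝ) else 0) := by
      intro a
      rw [Finset.sum_boole]
      have h3 : (univ : Finset Ω).offDiag.filter (fun q => l q.1 a = 0 ∧ l q.2 a = 0) =
          (univ.filter fun x => l x a = 0).offDiag := by
        ext q
        simp only [mem_filter, mem_offDiag, mem_univ, true_and]
        tauto
      rw [h3, offDiag_card]
      change (Z a : ℝ) * (Z a - 1) = ((Z a * Z a - Z a : ℕ) : ℝ)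
      rw [Nat.cast_sub (Nat.le_mul_self _)]
      push_cast
      ring
    simp only [h2]
    rw [Finset.sum_comm]
    have h4 : ∀ q ∈ (univ : Finset Ω).offDiag, (Nat.card A : ℝ) / (p : ℝ) ^ 2 ≤
        ∑ a : A, (if l q.1 a = 0 ∧ l q.2 a = 0 then (1 : ℝ) else 0) := by
      intro q _
      rw [div_le_iff₀ (by positivity)]
      have h5 := ker2_ge (l q.1) (l q.2)
      rw [Finset.sum_boole]
      rw [Nat.card_eq_fintype_card (α := {a // l q.1 a = 0 ∧ l q.2 a = 0}),
        Fintype.card_subtype] at h5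
      exact_mod_cast h5
    refine le_trans ?_ (Finset.sum_le_sum h4)
    rw [Finset.sum_const, offDiag_card, card_univ, nsmul_eq_mul,
      Nat.cast_sub (Nat.le_mul_self _)]
    push_cast
    rw [hn]
    apply le_of_eq
    ring
  have hs3 : ∑ a : A, (if a ∈ K then (Z a : ℝ) * (Z a - 1) else 0) ≤ n * (n - 1) * Nat.card K := by
    rw [← Finset.sum_filter]
    have h1 : ∀ a ∈ (univ : Finset A).filter (fun a => a ∈ K), (Z a : ℝ) * (Z a - 1) ≤
        n * (n - 1) := by
      intro a _
      have h2 : (Z a : ℝ) ≤ n := by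
        rw [← hn]
        exact_mod_cast card_le_univ _
      rcases Nat.eq_zero_or_pos (Z a) with h0 | h0
      · rw [h0]
        simp only [Nat.cast_zero, zero_mul]
        nlinarith
      · have h3 : (1 : ℝ) ≤ Z a := by exact_mod_cast h0
        nlinarith
    refine (Finset.sum_le_sum h1).trans ?_
    rw [Finset.sum_const, nsmul_eq_mul]
    have h4 : ((univ : Finset A).filter (fun a => a ∈ K)).card = Nat.card K := by
      rw [← Fintype.card_subtype, ← Nat.card_eq_fintype_card]
    rw [h4]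
    apply le_of_eq
    ring
  rw [hN]
  have hfin := Finset.sum_le_sum fun a (_ : a ∈ (univ : Finset A)) => hpt a
  refine le_trans ?_ hfin
  have hsplit : ∑ a : A, (if a ∈ K then 0 else (Z a : ℝ) * (Z a - 1) / m) =
      (∑ a : A, (Z a : ℝ) * (Z a - 1) - ∑ a : A, (if a ∈ K then (Z a : ℝ) * (Z a - 1) else 0)) / m
      := by
    rw [← Finset.sum_sub_distrib, Finset.sum_div]
    refine Finset.sum_congr rfl fun a _ => ?_
    split_ifs <;> simp
  rw [Finset.sum_add_distrib, Finset.sum_sub_distrib, hsplit, Finset.sum_const, card_univ,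
    nsmul_eq_mul, mul_one, ← Nat.card_eq_fintype_card]
  have h5 : n * (n - 1) * ((Nat.card A : ℝ) / (p : ℝ) ^ 2 - Nat.card K) / m ≤
      (∑ a : A, (Z a : ℝ) * (Z a - 1) - ∑ a : A, (if a ∈ K then (Z a : ℝ) * (Z a - 1) else 0)) / m
      := by
    apply div_le_div_of_nonneg_right _ hm0.le
    linarith
  linarith

end

end Pool.Agent.TH838.DS
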