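import Mathlib
import Pool.Agent.TH838.DS.Lin

set_option autoImplicit false

/-!
Binary forms over a prime field: counting the pairs without rational critical point.
-/

namespace Pool.Agent.TH838.DS

open Finset

section

variable {p : ℕ} [Fact p.Prime]

theorem ker2_le {A : Type} [AddCommGroup A] [Module (ZMod p) A] [Finite A]
    (l l' : A →ₗ[ZMod p] ZMod p) (v v' : A) (h : l v * l' v' - l v' * l' v ≠ 0) :
    Nat.card {a // l a = 0 ∧ l' a = 0} * p ^ 2 ≤ Nat.card A := by
  have h1 : Nat.card ({a // l a = 0 ∧ l' a = 0} × (ZMod p × ZMod p)) ≤ Nat.card A := by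
    apply Nat.card_le_card_of_injective
      (fun q : {a // l a = 0 ∧ l' a = 0} × (ZMod p × ZMod p) =>
        (q.1 : A) + q.2.1 • v + q.2.2 • v')
    rintro ⟨⟨a, ha, ha'⟩, s, t⟩ ⟨⟨b, hb, hb'⟩, s', t'⟩ hab
    simp only at hab
    have h2 := congrArg l hab
    have h3 := congrArg l' hab
    simp only [map_add, map_smul, ha, hb, ha', hb', zero_add, smul_eq_mul] at h2 h3
    have h4 : (s - s') * (l v * l' v' - l v' * l' v) = 0 := by
      linear_combination l' v' * h2 - l v' * h3
    have h5 : (t - t') * (l v * l' v' - l v' * l' v) = 0 := by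
      linear_combination l v * h3 - l' v * h2
    have h6 := sub_eq_zero.1 ((mul_eq_zero.1 h4).resolve_right h)
    have h7 := sub_eq_zero.1 ((mul_eq_zero.1 h5).resolve_right h)
    subst h6 h7
    have h8 := add_right_cancel (add_right_cancel hab)
    subst h8
    rfl
  rw [Nat.card_prod, Nat.card_prod, Nat.card_zmod] at h1
  nlinarith [h1]

variable {d : ℕ}

/-- The polynomial with coefficients `c`. -/
noncomputable def po {R : Type} [CommRing R] {d : ℕ} (c : Fin (d + 1) → R) : Polynomial R :=
  ∑ e : Fin (d + 1), Polynomial.C (c e) * Polynomial.X ^ (e : ℕ)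

/-- The value at a point of the projective line. -/
noncomputable def uu : Option (ZMod p) → ((Fin (d + 1) → ZMod p) →ₗ[ZMod p] ZMod p)
  | none => LinearMap.proj (Fin.last d)
  | some t => ∑ e : Fin (d + 1), (t ^ (e : ℕ)) • (LinearMap.proj e)

/-- The derivative at a point of the projective line. -/
noncomputable def ww : Option (ZMod p) → ((Fin (d + 1) → ZMod p) →ₗ[ZMod p] ZMod p)
  | none => LinearMap.proj (⟨d - 1, by omega⟩ : Fin (d + 1))
  | some t => ∑ e : Fin (d + 1), ((e : ℕ) * t ^ ((e : ℕ) - 1) : ZMod p) • (LinearMap.proj e)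

theorem uu_some (t : ZMod p) (c : Fin (d + 1) → ZMod p) :
    uu (some t) c = (po c).eval t := by
  simp only [uu, po, LinearMap.sum_apply, LinearMap.smul_apply, LinearMap.proj_apply, smul_eq_mul,
    Polynomial.eval_finsetSum, Polynomial.eval_mul, Polynomial.eval_C, Polynomial.eval_pow,
    Polynomial.eval_X]
  exact Finset.sum_congr rfl fun e _ => mul_comm _ _

theorem ww_some (t : ZMod p) (c : Fin (d + 1) → ZMod p) :
    ww (some t) c = (Polynomial.derivative (po c)).eval t := by
  simp only [ww, po, LinearMap.sum_apply, LinearMap.smul_apply, LinearMap.proj_apply, smul_eq_mul,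
    Polynomial.derivative_sum, Polynomial.derivative_mul, Polynomial.derivative_C, zero_mul,
    zero_add, Polynomial.derivative_X_pow,
    Polynomial.eval_finsetSum, Polynomial.eval_mul, Polynomial.eval_C, Polynomial.eval_pow,
    Polynomial.eval_X, Polynomial.eval_natCast]
  refine Finset.sum_congr rfl fun e _ => ?_
  ring

theorem uu_none (c : Fin (d + 1) → ZMod p) : uu none c = c (Fin.last d) := rfl

theorem ww_none (c : Fin (d + 1) → ZMod p) :
    ww none c = c (⟨d - 1, by omega⟩ : Fin (d + 1)) := rfl

/-- The determinant, linear in the first polynomial. -/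
noncomputable def ll (q : Fin (d + 1) → ZMod p) (x : Option (ZMod p)) :
    (Fin (d + 1) → ZMod p) →ₗ[ZMod p] ZMod p :=
  (uu x q) • ww x - (ww x q) • uu x

theorem ll_apply (q c : Fin (d + 1) → ZMod p) (x : Option (ZMod p)) :
    ll q x c = uu x q * ww x c - ww x q * uu x c := by
  simp [ll]

/-- No critical point on the projective line over the prime field. -/
def NoCrit (c : Fin 2 × Fin (d + 1) → ZMod p) : Prop :=
  ∀ x : Option (ZMod p), ll (fun e => c (1, e)) x (fun e => c (0, e)) ≠ 0

theorem exists_vec (hd : 1 ≤ d) (x : Option (ZMod p)) : ∃ v v' : Fin (d + 1) → ZMod p,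
    uu x v * ww x v' - uu x v' * ww x v ≠ 0 := by
  cases x with
  | none =>
    refine ⟨Pi.single (Fin.last d) 1, Pi.single (⟨d - 1, by omega⟩ : Fin (d + 1)) 1, ?_⟩
    rw [uu_none, uu_none, ww_none, ww_none]
    have h : (⟨d - 1, by omega⟩ : Fin (d + 1)) ≠ Fin.last d := by
      intro h
      have := congrArg Fin.val h
      simp only [Fin.val_last] at this
      omega
    rw [Pi.single_eq_same, Pi.single_eq_same, Pi.single_eq_of_ne h, Pi.single_eq_of_ne h.symm]
    simp
  | some t =>
    refine ⟨Pi.single (0 : Fin (d + 1)) 1, Pi.single (⟨1, by omega⟩ : Fin (d + 1)) 1, ?_⟩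
    have e1 : po (Pi.single (0 : Fin (d + 1)) (1 : ZMod p)) = 1 := by
      unfold po
      rw [Finset.sum_eq_single 0]
      · simp
      · intro b _ hb
        rw [Pi.single_eq_of_ne hb]
        simp
      · simp
    have e2 : po (Pi.single (⟨1, by omega⟩ : Fin (d + 1)) (1 : ZMod p)) = Polynomial.X := by
      unfold po
      rw [Finset.sum_eq_single ⟨1, by omega⟩]
      · simp
      · intro b _ hb
        rw [Pi.single_eq_of_ne hb]
        simp
      · simp
    rw [uu_some, uu_some, ww_some, ww_some, e1, e2]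
    simp

/-- No double zero on the projective line over the prime field. -/
def QGood (q : Fin (d + 1) → ZMod p) : Prop := ∀ x : Option (ZMod p), ¬ (uu x q = 0 ∧ ww x q = 0)

theorem ll_ne (hd : 1 ≤ d) {q : Fin (d + 1) → ZMod p} (hq : QGood q) (x : Option (ZMod p)) :
    ll q x ≠ 0 := by
  intro h
  obtain ⟨v, v', hv⟩ := exists_vec hd x
  have h1 := LinearMap.congr_fun h v
  have h2 := LinearMap.congr_fun h v'
  rw [ll_apply, LinearMap.zero_apply] at h1 h2
  apply hq x
  have h3 : uu x q * (uu x v * ww x v' - uu x v' * ww x v) = 0 := by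
    linear_combination (uu x v) * h2 - (uu x v') * h1
  have h4 : ww x q * (uu x v * ww x v' - uu x v' * ww x v) = 0 := by
    linear_combination (ww x v) * h2 - (ww x v') * h1
  exact ⟨(mul_eq_zero.1 h3).resolve_right hv, (mul_eq_zero.1 h4).resolve_right hv⟩

theorem card_A : (Nat.card (Fin (d + 1) → ZMod p) : ℝ) = (p : ℝ) ^ (d + 1) := by
  rw [Nat.card_eq_fintype_card, Fintype.card_fun, ZMod.card, Fintype.card_fin]
  push_cast
  rfl

theorem card_Om : Fintype.card (Option (ZMod p)) = p + 1 := by
  rw [Fintype.card_option, ZMod.card]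

theorem card_QGood (hd : 1 ≤ d) (hp : 3 ≤ p) :
    (p : ℝ) ^ (d + 1) / 2 ≤ Nat.card {q : Fin (d + 1) → ZMod p // QGood q} := by
  classical
  have hp0 : (3 : ℝ) ≤ p := by exact_mod_cast hp
  have h1 : (univ.filter fun q : Fin (d + 1) → ZMod p => ¬ QGood q) ⊆
      (univ : Finset (Option (ZMod p))).biUnion fun x =>
        univ.filter fun q : Fin (d + 1) → ZMod p => uu x q = 0 ∧ ww x q = 0 := by
    intro q hq
    simp only [mem_filter, mem_univ, true_and, QGood, not_forall, not_not] at hq
    simp only [mem_biUnion, mem_filter, mem_univ, true_and]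
    exact hq
  have h2 : ((univ.filter fun q : Fin (d + 1) → ZMod p => ¬ QGood q).card : ℝ) ≤
      (p + 1) * ((p : ℝ) ^ (d + 1) / (p : ℝ) ^ 2) := by
    have h3 := (card_le_card h1).trans card_biUnion_le
    have h4 : ∀ x ∈ (univ : Finset (Option (ZMod p))),
        (((univ.filter fun q : Fin (d + 1) → ZMod p => uu x q = 0 ∧ ww x q = 0).card : ℕ) : ℝ) ≤
          (p : ℝ) ^ (d + 1) / (p : ℝ) ^ 2 := by
      intro x _
      obtain ⟨v, v', hv⟩ := exists_vec (d := d) hd x
      have h5 := ker2_le (uu x) (ww x) v v' hv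
      rw [le_div_iff₀ (by positivity), ← card_A (d := d)]
      rw [Nat.card_eq_fintype_card (α := {a // uu x a = 0 ∧ ww x a = 0}),
        Fintype.card_subtype] at h5
      exact_mod_cast h5
    have h6 : ((univ.filter fun q : Fin (d + 1) → ZMod p => ¬ QGood q).card : ℝ) ≤
        ∑ x : Option (ZMod p),
          ((univ.filter fun q : Fin (d + 1) → ZMod p => uu x q = 0 ∧ ww x q = 0).card : ℝ) := by
      exact_mod_cast h3
    refine h6.trans ((Finset.sum_le_sum h4).trans ?_)
    rw [Finset.sum_const, card_univ, card_Om, nsmul_eq_mul]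
    push_cast
    exact le_rfl
  have h7 : Nat.card {q : Fin (d + 1) → ZMod p // QGood q} =
      (univ.filter fun q : Fin (d + 1) → ZMod p => QGood q).card := by
    rw [Nat.card_eq_fintype_card, Fintype.card_subtype]
  have h8 : (univ.filter fun q : Fin (d + 1) → ZMod p => QGood q).card +
      (univ.filter fun q : Fin (d + 1) → ZMod p => ¬ QGood q).card =
      Nat.card (Fin (d + 1) → ZMod p) := by
    rw [Finset.card_filter_add_card_filter_not, card_univ, Nat.card_eq_fintype_card]
  have h9 : ((univ.filter fun q : Fin (d + 1) → ZMod p => QGood q).card : ℝ) +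
      (univ.filter fun q : Fin (d + 1) → ZMod p => ¬ QGood q).card = (p : ℝ) ^ (d + 1) := by
    rw [← card_A (d := d)]
    exact_mod_cast h8
  rw [h7]
  have h10 : (p + 1) * ((p : ℝ) ^ (d + 1) / (p : ℝ) ^ 2) ≤ (p : ℝ) ^ (d + 1) / 2 := by
    have h11 : (p + 1 : ℝ) / (p : ℝ) ^ 2 ≤ 1 / 2 := by
      rw [div_le_div_iff₀ (by positivity) (by norm_num)]
      nlinarith
    calc (p + 1) * ((p : ℝ) ^ (d + 1) / (p : ℝ) ^ 2) =
        (p : ℝ) ^ (d + 1) * ((p + 1 : ℝ) / (p : ℝ) ^ 2) := by ring
      _ ≤ (p : ℝ) ^ (d + 1) * (1 / 2) := by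
        apply mul_le_mul_of_nonneg_left h11
        positivity
      _ = _ := by ring
  linarith

/-- The functions proportional to `q`. -/
def KK (q : Fin (d + 1) → ZMod p) : Set (Fin (d + 1) → ZMod p) :=
  {c | Polynomial.derivative (po c) * po q - po c * Polynomial.derivative (po q) = 0}

theorem natDegree_po (c : Fin (d + 1) → ZMod p) : (po c).natDegree ≤ d := by
  unfold po
  apply Polynomial.natDegree_sum_le_of_forall_le
  intro e _
  refine (Polynomial.natDegree_C_mul_X_pow_le _ _).trans ?_
  omega

theorem po_injective : Function.Injective (po : (Fin (d + 1) → ZMod p) → Polynomial (ZMod p)) := by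
  intro c c' h
  funext e
  have h1 : ∀ b : Fin (d + 1) → ZMod p, (po b).coeff (e : ℕ) = b e := by
    intro b
    unfold po
    rw [Polynomial.finsetSum_coeff, Finset.sum_eq_single e]
    · simp
    · intro b' _ hb
      rw [Polynomial.coeff_C_mul, Polynomial.coeff_X_pow, if_neg, mul_zero]
      intro h2
      exact hb (Fin.ext h2.symm)
    · simp
  rw [← h1 c, ← h1 c', h]

theorem po_add (a b : Fin (d + 1) → ZMod p) : po (a + b) = po a + po b := by
  unfold po
  rw [← Finset.sum_add_distrib]
  refine Finset.sum_congr rfl fun e _ => ?_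
  rw [Pi.add_apply, map_add, add_mul]

theorem po_smul (s : ZMod p) (a : Fin (d + 1) → ZMod p) :
    po (s • a) = Polynomial.C s * po a := by
  unfold po
  rw [Finset.mul_sum]
  refine Finset.sum_congr rfl fun e _ => ?_
  rw [Pi.smul_apply, smul_eq_mul, map_mul, mul_assoc]

theorem po_sub (a b : Fin (d + 1) → ZMod p) : po (a - b) = po a - po b := by
  have h := po_add (a - b) b
  rw [sub_add_cancel] at h
  rw [h]
  ring

theorem card_KK (hdp : d < p) {q : Fin (d + 1) → ZMod p} (hq : q ≠ 0) :
    Nat.card (KK q) ≤ p := by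
  have hQ : po q ≠ 0 := by
    intro h
    apply hq
    apply po_injective
    rw [h]
    unfold po
    simp
  obtain ⟨t, ht⟩ : ∃ t : ZMod p, (po q).eval t ≠ 0 := by
    by_contra hcon
    push Not at hcon
    apply hQ
    apply Polynomial.eq_zero_of_natDegree_lt_card_of_eval_eq_zero' (po q) Finset.univ
    · intro x _
      exact hcon x
    · rw [card_univ, ZMod.card]
      exact lt_of_le_of_lt (natDegree_po q) hdp
  have h1 : Nat.card (KK q) ≤ Nat.card (ZMod p) := by
    apply Nat.card_le_card_of_injective (fun c : KK q => (po c.1).eval t)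
    rintro ⟨c, hc⟩ ⟨c', hc'⟩ hcc
    simp only at hcc
    apply Subtype.ext
    simp only
    by_contra hne
    have hK : Polynomial.derivative (po (c - c')) * po q =
        po (c - c') * Polynomial.derivative (po q) := by
      have h2 : Polynomial.derivative (po c) * po q - po c * Polynomial.derivative (po q) = 0 := hc
      have h3 : Polynomial.derivative (po c') * po q - po c' * Polynomial.derivative (po q) = 0 :=
        hc'
      rw [po_sub, Polynomial.derivative_sub]
      linear_combination h2 - h3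
    have hP : po (c - c') ≠ 0 := by
      intro h
      rw [po_sub, sub_eq_zero] at h
      exact hne (po_injective h)
    have hroot : (po (c - c')).IsRoot t := by
      rw [Polynomial.IsRoot, po_sub, Polynomial.eval_sub, hcc, sub_self]
    set P := po (c - c') with hPdef
    have hr1 : 0 < P.rootMultiplicity t := (Polynomial.rootMultiplicity_pos hP).2 hroot
    have hr2 : P.rootMultiplicity t < p := by
      have h2 : P.rootMultiplicity t ≤ P.natDegree := by
        have h3 := Polynomial.card_roots' P
        have h4 : P.rootMultiplicity t ≤ Multiset.card P.roots := by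
          rw [← Polynomial.count_roots]
          exact Multiset.count_le_card _ _
        omega
      have h5 := natDegree_po (c - c')
      rw [← hPdef] at h5
      omega
    have hr3 : ((P.rootMultiplicity t : ℕ) : ZMod p) ∈ nonZeroDivisors (ZMod p) := by
      rw [mem_nonZeroDivisors_iff_ne_zero]
      intro h
      rw [ZMod.natCast_eq_zero_iff] at h
      exact absurd (Nat.le_of_dvd hr1 h) (by omega)
    have hr4 := Polynomial.derivative_rootMultiplicity_of_root_of_mem_nonZeroDivisors hroot hr3
    have hQ0 : (po q).rootMultiplicity t = 0 := Polynomial.rootMultiplicity_eq_zero ht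
    have hP' : Polynomial.derivative P ≠ 0 := by
      intro h
      rw [h, zero_mul] at hK
      have h2 := (mul_eq_zero.1 hK.symm).resolve_left hP
      -- the derivative of `P` vanishes: degree reasons
      have h3 : P.natDegree = 0 := by
        by_contra h4
        have h6 : (Polynomial.derivative P).coeff (P.natDegree - 1) = 0 := by rw [h]; simp
        rw [Polynomial.coeff_derivative, Nat.sub_add_cancel (by omega)] at h6
        rcases mul_eq_zero.1 h6 with h7 | h7
        · exact hP (Polynomial.leadingCoeff_eq_zero.1 h7)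
        · have h8 : ((P.natDegree : ℕ) : ZMod p) = 0 := by
            have h9 : P.natDegree = (P.natDegree - 1) + 1 := by omega
            rw [h9]
            push_cast
            exact h7
          rw [ZMod.natCast_eq_zero_iff] at h8
          have h10 := natDegree_po (c - c')
          rw [← hPdef] at h10
          exact absurd (Nat.le_of_dvd (by omega) h8) (by omega)
      rw [Polynomial.eq_C_of_natDegree_eq_zero h3] at hroot
      rw [Polynomial.IsRoot, Polynomial.eval_C] at hroot
      apply hP
      rw [Polynomial.eq_C_of_natDegree_eq_zero h3, hroot, map_zero]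
    have hl : (Polynomial.derivative P * po q).rootMultiplicity t =
        P.rootMultiplicity t - 1 := by
      rw [Polynomial.rootMultiplicity_mul (mul_ne_zero hP' hQ), hr4, hQ0, add_zero]
    have hne2 : P * Polynomial.derivative (po q) ≠ 0 := by
      rw [← hK]
      exact mul_ne_zero hP' hQ
    have hr : (P * Polynomial.derivative (po q)).rootMultiplicity t ≥ P.rootMultiplicity t := by
      rw [Polynomial.rootMultiplicity_mul hne2]
      omega
    rw [← hK, hl] at hr
    omega
  rwa [Nat.card_zmod] at h1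

theorem zeros_le (q : Fin (d + 1) → ZMod p) (c : Fin (d + 1) → ZMod p) (hc : c ∉ KK q)
    (hd : 1 ≤ d) : Nat.card {x // ll q x c = 0} ≤ 2 * d := by
  classical
  set R := Polynomial.derivative (po c) * po q - po c * Polynomial.derivative (po q) with hR
  have hR0 : R ≠ 0 := hc
  have h1 : ∀ t : ZMod p, ll q (some t) c = R.eval t := by
    intro t
    rw [ll_apply, uu_some, uu_some, ww_some, ww_some, hR, Polynomial.eval_sub,
      Polynomial.eval_mul, Polynomial.eval_mul]
    ring
  have hdeg : R.natDegree ≤ 2 * d - 1 := by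
    rw [hR]
    refine (Polynomial.natDegree_sub_le _ _).trans (max_le ?_ ?_)
    · refine Polynomial.natDegree_mul_le.trans ?_
      have h2 := Polynomial.natDegree_derivative_le (po c)
      have h3 := natDegree_po c
      have h4 := natDegree_po q
      omega
    · refine Polynomial.natDegree_mul_le.trans ?_
      have h2 := Polynomial.natDegree_derivative_le (po q)
      have h3 := natDegree_po c
      have h4 := natDegree_po q
      omega
  rw [Nat.card_eq_fintype_card, Fintype.card_subtype]
  have h2 : (univ.filter fun x => ll q x c = 0) ⊆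
      insert none (R.roots.toFinset.map Function.Embedding.some) := by
    intro x hx
    simp only [mem_filter, mem_univ, true_and] at hx
    cases x with
    | none => exact mem_insert_self _ _
    | some t =>
      apply mem_insert_of_mem
      rw [mem_map]
      refine ⟨t, ?_, rfl⟩
      rw [Multiset.mem_toFinset, Polynomial.mem_roots hR0, Polynomial.IsRoot, ← h1 t, hx]
  refine (card_le_card h2).trans ((card_insert_le _ _).trans ?_)
  rw [card_map]
  have h3 := Multiset.toFinset_card_le R.roots
  have h4 := Polynomial.card_roots' R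
  omega

theorem count_fixed (hd : 3 ≤ d) (hp : 8 * d ≤ p) {q : Fin (d + 1) → ZMod p} (hq : QGood q) :
    (p : ℝ) ^ (d + 1) / (8 * d) ≤
      Nat.card {c : Fin (d + 1) → ZMod p // ∀ x, ll q x c ≠ 0} := by
  have hq0 : q ≠ 0 := by
    rintro rfl
    exact hq none ⟨rfl, rfl⟩
  have hp1 : 8 * (d : ℝ) ≤ p := by exact_mod_cast hp
  have hd1 : (3 : ℝ) ≤ d := by exact_mod_cast hd
  have h1 := count_lin (ll q) (ll_ne (by omega) hq) (KK q) (2 * d) (by omega)
    (fun a ha => zeros_le q a ha (by omega)) (p + 1) (by rw [card_Om]; push_cast; rfl)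
    (by linarith)
  refine le_trans ?_ h1
  rw [card_A]
  have h2 : (Nat.card (KK q) : ℝ) ≤ p := by exact_mod_cast card_KK (by omega) hq0
  obtain ⟨m, rfl⟩ : ∃ m, d = m + 3 := ⟨d - 3, by omega⟩
  have hpp : (0 : ℝ) < p := by linarith
  have e1 : (p : ℝ) ^ (m + 3 + 1) / p = (p : ℝ) ^ (m + 3) := by
    rw [pow_succ]
    field_simp
  have e2 : (p : ℝ) ^ (m + 3 + 1) / (p : ℝ) ^ 2 = (p : ℝ) ^ (m + 2) := by
    rw [div_eq_iff (by positivity)]
    ring
  rw [e1, e2]
  have h3 : (p : ℝ) ^ (m + 2) / 2 ≤ (p : ℝ) ^ (m + 2) - Nat.card (KK q) := by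
    have h4 : (2 * p : ℝ) ≤ (p : ℝ) ^ (m + 2) := by
      have h5 : (1 : ℝ) ≤ (p : ℝ) ^ m := one_le_pow₀ (by linarith)
      have h6 : (p : ℝ) ^ (m + 2) = (p : ℝ) ^ m * (p * p) := by ring
      rw [h6]
      nlinarith
    linarith
  have h7 : ((p : ℝ) + 1) * (p + 1 - 1) * ((p : ℝ) ^ (m + 2) / 2) / ((2 * (m + 3) : ℕ) : ℝ) ≤
      ((p : ℝ) + 1) * (p + 1 - 1) * ((p : ℝ) ^ (m + 2) - Nat.card (KK q)) /
        ((2 * (m + 3) : ℕ) : ℝ) := by
    apply div_le_div_of_nonneg_right _ (by positivity)
    apply mul_le_mul_of_nonneg_left h3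
    have : (0 : ℝ) ≤ p + 1 - 1 := by linarith
    positivity
  refine le_trans ?_ (add_le_add_right h7 _)
  push_cast at hp1 hd1 ⊢
  have h8 : (p : ℝ) ^ (m + 3 + 1) / (8 * (m + 3)) = (p : ℝ) ^ (m + 3) * (p / (8 * (m + 3))) := by
    rw [pow_succ]; ring
  have h9 : ((p : ℝ) + 1) * (p + 1 - 1) * ((p : ℝ) ^ (m + 2) / 2) / (2 * (m + 3)) =
      (p : ℝ) ^ (m + 3) * ((p + 1) / (4 * (m + 3))) := by
    field_simp
    ring
  have h10 : (p : ℝ) ^ (m + 3 + 1) - (p + 1) * (p : ℝ) ^ (m + 3) = (p : ℝ) ^ (m + 3) * (-1) := by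
    ring
  rw [h8, h9, h10, ← mul_add]
  apply mul_le_mul_of_nonneg_left _ (by positivity)
  have h11 : (p + 1 : ℝ) / (4 * (m + 3)) = 2 * (p / (8 * (m + 3))) + 1 / (4 * (m + 3)) := by
    field_simp
    ring
  have h12 : (1 : ℝ) ≤ p / (8 * (m + 3)) := by
    rw [le_div_iff₀ (by positivity)]
    linarith
  have h13 : (0 : ℝ) ≤ 1 / (4 * (m + 3)) := by positivity
  rw [h11]
  linarith

/-- The pairs with no critical point, `d ≥ 3`. -/
theorem count_noCrit_three (hd : 3 ≤ d) (hp : 8 * d ≤ p) :
    (1 / (16 * d) : ℝ) * (p : ℝ) ^ Fintype.card (Fin 2 × Fin (d + 1)) ≤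
      Nat.card {c : Fin 2 × Fin (d + 1) → ZMod p // NoCrit c} := by
  classical
  let e : {c : Fin 2 × Fin (d + 1) → ZMod p // NoCrit c} ≃
      Σ q : Fin (d + 1) → ZMod p, {c : Fin (d + 1) → ZMod p // ∀ x, ll q x c ≠ 0} :=
    { toFun := fun c => ⟨fun k => c.1 (1, k), ⟨fun k => c.1 (0, k), c.2⟩⟩
      invFun := fun w => ⟨fun k => if k.1 = 0 then w.2.1 k.2 else w.1 k.2, by
        have h := w.2.2
        simpa [NoCrit] using h⟩
      left_inv := fun c => by
        apply Subtype.ext
        funext k
        obtain ⟨i, k⟩ := k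
        fin_cases i <;> simp
      right_inv := fun w => by
        obtain ⟨q, c, hc⟩ := w
        simp }
  rw [Nat.card_congr e, Nat.card_sigma]
  have h1 := card_QGood (p := p) (d := d) (by omega) (by omega)
  rw [Nat.card_eq_fintype_card, Fintype.card_subtype] at h1
  have hd1 : (3 : ℝ) ≤ d := by exact_mod_cast hd
  have h2 : ∑ q ∈ univ.filter (fun q : Fin (d + 1) → ZMod p => QGood q),
      (p : ℝ) ^ (d + 1) / (8 * d) ≤
      ((∑ q : Fin (d + 1) → ZMod p,
        Nat.card {c : Fin (d + 1) → ZMod p // ∀ x, ll q x c ≠ 0} : ℕ) : ℝ) := by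
    push_cast
    have hsub : univ.filter (fun q : Fin (d + 1) → ZMod p => QGood q) ⊆ univ :=
      Finset.filter_subset _ _
    refine le_trans ?_ (Finset.sum_le_sum_of_subset_of_nonneg hsub
      (fun q _ _ => Nat.cast_nonneg _))
    apply Finset.sum_le_sum
    intro q hq
    have hq' : QGood q := by simpa using hq
    exact count_fixed hd hp hq'
  refine le_trans ?_ h2
  rw [Finset.sum_const, nsmul_eq_mul, Fintype.card_prod, Fintype.card_fin, Fintype.card_fin]
  have h3 : (p : ℝ) ^ (2 * (d + 1)) = (p : ℝ) ^ (d + 1) * (p : ℝ) ^ (d + 1) := by ring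
  rw [h3]
  have h4 : (1 / (16 * d) : ℝ) * ((p : ℝ) ^ (d + 1) * (p : ℝ) ^ (d + 1)) =
      ((p : ℝ) ^ (d + 1) / 2) * ((p : ℝ) ^ (d + 1) / (8 * d)) := by
    field_simp
    ring
  rw [h4]
  apply mul_le_mul_of_nonneg_right h1
  positivity

end

end Pool.Agent.TH838.DS
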