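import Mathlib
import Pool.Agent.TH838.DS.Cnt

set_option autoImplicit false

/-!
Pairs of binary quadratic forms without rational critical point.
-/

namespace Pool.Agent.TH838.DS

open Finset

section

variable {p : ℕ} [Fact p.Prime]

theorem card_nonsq (hp : p ≠ 2) : p - 1 ≤ 2 * Nat.card {s : ZMod p // ¬ IsSquare s} := by
  classical
  have hchar : ringChar (ZMod p) ≠ 2 := by rwa [ZMod.ringChar_zmod_n]
  obtain ⟨n, hn⟩ := FiniteField.exists_nonsquare hchar
  have hmul : ∀ u : ZMod p, u ≠ 0 → IsSquare u → ¬ IsSquare (n * u) := by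
    rintro u hu ⟨r, rfl⟩ ⟨w, hw⟩
    apply hn
    have hr : r ≠ 0 := by
      rintro rfl
      simp at hu
    refine ⟨w / r, ?_⟩
    field_simp
    linear_combination hw
  have h1 : Nat.card (ZMod p)ˣ ≤ Nat.card (Bool × {s : ZMod p // ¬ IsSquare s}) := by
    apply Nat.card_le_card_of_injective (fun u : (ZMod p)ˣ =>
      if h : IsSquare (u : ZMod p) then (true, (⟨n * u, hmul u u.ne_zero h⟩ : {s : ZMod p // ¬ IsSquare s}))
      else (false, ⟨u, h⟩))
    intro u v huv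
    by_cases h1 : IsSquare (u : ZMod p) <;> by_cases h2 : IsSquare (v : ZMod p)
    · simp only [h1, h2, dif_pos, Prod.mk.injEq, Subtype.mk.injEq, true_and] at huv
      have hn0 : n ≠ 0 := by
        rintro rfl
        exact hn ⟨0, by simp⟩
      exact Units.ext (mul_left_cancel₀ hn0 huv)
    · simp [h1, h2] at huv
    · simp [h1, h2] at huv
    · simp only [h1, h2, dif_neg, not_false_eq_true, Prod.mk.injEq, Subtype.mk.injEq,
        true_and] at huv
      exact Units.ext huv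
  rw [Nat.card_prod, Nat.card_eq_fintype_card (α := Bool), Fintype.card_bool,
    Nat.card_eq_fintype_card, ZMod.card_units_eq_totient, Nat.totient_prime Fact.out] at h1
  exact h1

/-- The parametrisation. -/
abbrev Par (p : ℕ) [Fact p.Prime] : Type :=
  (ZMod p)ˣ × ZMod p × ZMod p × (ZMod p)ˣ × ZMod p × {s : ZMod p // ¬ IsSquare s}

/-- The coefficients: `w = (c2, c1, q2, A, B, s)`. -/
noncomputable def parc (w : Par p) : Fin 2 × Fin (2 + 1) → ZMod p := fun k =>
  let c2 : ZMod p := w.1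
  let c1 := w.2.1
  let q2 := w.2.2.1
  let A : ZMod p := w.2.2.2.1
  let B := w.2.2.2.2.1
  let s : ZMod p := w.2.2.2.2.2
  let q1 := (A + q2 * c1) / c2
  let C := (B ^ 2 - s) / A
  let q0 := (B * q1 - q2 * C) / A
  let c0 := (c1 * B - c2 * C) / A
  if k.1 = 0 then ![c0, c1, c2] k.2 else ![q0, q1, q2] k.2

theorem parc_rel (w : Par p) :
    parc w (0, 2) = w.1 ∧ parc w (0, 1) = w.2.1 ∧ parc w (1, 2) = w.2.2.1 ∧
    parc w (1, 1) * parc w (0, 2) - parc w (1, 2) * parc w (0, 1) = w.2.2.2.1 ∧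
    parc w (1, 0) * parc w (0, 2) - parc w (1, 2) * parc w (0, 0) = w.2.2.2.2.1 ∧
    (w.2.2.2.2.1) ^ 2 - w.2.2.2.1 *
      (parc w (1, 0) * parc w (0, 1) - parc w (1, 1) * parc w (0, 0)) = w.2.2.2.2.2 := by
  obtain ⟨c2, c1, q2, A, B, s⟩ := w
  have h1 : (c2 : ZMod p) ≠ 0 := c2.ne_zero
  have h2 : (A : ZMod p) ≠ 0 := A.ne_zero
  refine ⟨by simp [parc], by simp [parc], by simp [parc], ?_, ?_, ?_⟩
  · simp only [parc]
    simp
  · simp only [parc]
    simp
    field_simp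
    ring
  · simp only [parc]
    simp
    field_simp
    ring

theorem ll_two (c : Fin 2 × Fin (2 + 1) → ZMod p) (t : ZMod p) :
    ll (fun e => c (1, e)) (some t) (fun e => c (0, e)) =
      (c (1, 1) * c (0, 2) - c (1, 2) * c (0, 1)) * t ^ 2 +
      2 * (c (1, 0) * c (0, 2) - c (1, 2) * c (0, 0)) * t +
      (c (1, 0) * c (0, 1) - c (1, 1) * c (0, 0)) := by
  rw [ll_apply]
  have key : ∀ f : Fin (2 + 1) → ZMod p, ∑ x, f x = f 0 + f 1 + f 2 := fun f =>
    Fin.sum_univ_three f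
  have v0 : ((0 : Fin (2 + 1)) : ℕ) = 0 := rfl
  have v1 : ((1 : Fin (2 + 1)) : ℕ) = 1 := rfl
  have v2 : ((2 : Fin (2 + 1)) : ℕ) = 2 := rfl
  simp only [uu, ww, LinearMap.sum_apply, LinearMap.smul_apply, LinearMap.proj_apply, smul_eq_mul,
    key, v0, v1, v2]
  norm_num
  ring

theorem ll_two_none (c : Fin 2 × Fin (2 + 1) → ZMod p) :
    ll (fun e => c (1, e)) none (fun e => c (0, e)) =
      -(c (1, 1) * c (0, 2) - c (1, 2) * c (0, 1)) := by
  rw [ll_apply, uu_none, uu_none, ww_none, ww_none]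
  have h1 : (⟨2 - 1, by omega⟩ : Fin (2 + 1)) = 1 := rfl
  have h2 : Fin.last 2 = (2 : Fin (2 + 1)) := rfl
  rw [h1, h2]
  ring

theorem parc_noCrit (w : Par p) : NoCrit (parc w) := by
  obtain ⟨h1, h2, h3, h4, h5, h6⟩ := parc_rel w
  intro x
  cases x with
  | none =>
    rw [ll_two_none, h4]
    exact neg_ne_zero.2 (Units.ne_zero _)
  | some t =>
    rw [ll_two, h4, h5]
    intro h
    apply w.2.2.2.2.2.2
    refine ⟨(w.2.2.2.1 : ZMod p) * t + w.2.2.2.2.1, ?_⟩
    rw [← h6]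
    linear_combination (-(w.2.2.2.1 : ZMod p)) * h

theorem parc_injective : Function.Injective (parc : Par p → _) := by
  intro w w' h
  obtain ⟨h1, h2, h3, h4, h5, h6⟩ := parc_rel w
  obtain ⟨h1', h2', h3', h4', h5', h6'⟩ := parc_rel w'
  rw [h] at h1 h2 h3 h4 h5 h6
  have e4 := h4.symm.trans h4'
  have e5 := h5.symm.trans h5'
  rw [e4, e5] at h6
  have e6 := h6.symm.trans h6'
  obtain ⟨a1, a2, a3, a4, a5, a6⟩ := w
  obtain ⟨b1, b2, b3, b4, b5, b6⟩ := w'
  simp only at h1 h1' h2 h2' h3 h3' e4 e5 e6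
  have g1 : a1 = b1 := Units.ext (h1.symm.trans h1')
  have g2 : a2 = b2 := h2.symm.trans h2'
  have g3 : a3 = b3 := h3.symm.trans h3'
  have g4 : a4 = b4 := Units.ext e4
  have g6 : a6 = b6 := Subtype.ext e6
  subst g1 g2 g3 g4 e5 g6
  rfl

theorem count_noCrit_two (hp : 16 ≤ p) :
    (1 / (16 * (2 : ℕ)) : ℝ) * (p : ℝ) ^ Fintype.card (Fin 2 × Fin (2 + 1)) ≤
      Nat.card {c : Fin 2 × Fin (2 + 1) → ZMod p // NoCrit c} := by
  have h1 : Nat.card (Par p) ≤ Nat.card {c : Fin 2 × Fin (2 + 1) → ZMod p // NoCrit c} := by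
    apply Nat.card_le_card_of_injective (fun w : Par p => (⟨parc w, parc_noCrit w⟩ :
      {c : Fin 2 × Fin (2 + 1) → ZMod p // NoCrit c}))
    intro w w' h
    exact parc_injective (congrArg Subtype.val h)
  have hu : Nat.card (ZMod p)ˣ = p - 1 := by
    rw [Nat.card_eq_fintype_card, ZMod.card_units_eq_totient, Nat.totient_prime Fact.out]
  have h2 : Nat.card (Par p) = (p - 1) * (p * (p * ((p - 1) * (p *
      Nat.card {s : ZMod p // ¬ IsSquare s})))) := by
    rw [Nat.card_prod, Nat.card_prod, Nat.card_prod, Nat.card_prod, Nat.card_prod, Nat.card_zmod,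
      hu]
  have h3 := card_nonsq (p := p) (by omega)
  have h4 : (Nat.card (Par p) : ℝ) ≤
      Nat.card {c : Fin 2 × Fin (2 + 1) → ZMod p // NoCrit c} := by exact_mod_cast h1
  refine le_trans ?_ h4
  rw [h2]
  have hp1 : (16 : ℝ) ≤ p := by exact_mod_cast hp
  have h5 : ((p : ℝ) / 2) ≤ ((p - 1 : ℕ) : ℝ) := by
    rw [Nat.cast_sub (by omega)]
    push_cast
    linarith
  have h6 : ((p : ℝ) / 4) ≤ (Nat.card {s : ZMod p // ¬ IsSquare s} : ℝ) := by
    have h7 : ((p - 1 : ℕ) : ℝ) ≤ 2 * (Nat.card {s : ZMod p // ¬ IsSquare s} : ℝ) := by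
      exact_mod_cast h3
    linarith
  rw [Fintype.card_prod, Fintype.card_fin, Fintype.card_fin]
  push_cast
  have h8 : (p / 2 : ℝ) * (p * (p * ((p / 2) * (p * (p / 4))))) ≤
      ((p - 1 : ℕ) : ℝ) * (p * (p * (((p - 1 : ℕ) : ℝ) * (p *
        (Nat.card {s : ZMod p // ¬ IsSquare s} : ℝ))))) := by
    gcongr
  have h9 : (p / 2 : ℝ) * (p * (p * ((p / 2) * (p * (p / 4))))) = (p : ℝ) ^ 6 / 16 := by ring
  rw [h9] at h8
  refine le_trans ?_ h8
  have h10 : (0 : ℝ) ≤ (p : ℝ) ^ 6 := by positivity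
  norm_num
  linarith

theorem ll_one (c : Fin 2 × Fin (1 + 1) → ZMod p) (x : Option (ZMod p)) :
    ll (fun e => c (1, e)) x (fun e => c (0, e)) = c (1, 0) * c (0, 1) - c (1, 1) * c (0, 0) ∨
    ll (fun e => c (1, e)) x (fun e => c (0, e)) =
      -(c (1, 0) * c (0, 1) - c (1, 1) * c (0, 0)) := by
  cases x with
  | none =>
    right
    rw [ll_apply, uu_none, uu_none, ww_none, ww_none]
    have h1 : (⟨1 - 1, by omega⟩ : Fin (1 + 1)) = 0 := rfl
    have h2 : Fin.last 1 = (1 : Fin (1 + 1)) := rfl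
    rw [h1, h2]
    ring
  | some t =>
    left
    rw [ll_apply]
    have key : ∀ f : Fin (1 + 1) → ZMod p, ∑ x, f x = f 0 + f 1 := fun f =>
      Fin.sum_univ_two f
    have v0 : ((0 : Fin (1 + 1)) : ℕ) = 0 := rfl
    have v1 : ((1 : Fin (1 + 1)) : ℕ) = 1 := rfl
    simp only [uu, ww, LinearMap.sum_apply, LinearMap.smul_apply, LinearMap.proj_apply,
      smul_eq_mul, key, v0, v1]
    norm_num
    ring

theorem count_fixed_one (hp : 8 ≤ p) {q : Fin (1 + 1) → ZMod p} (hq : QGood q) :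
    (p : ℝ) ^ (1 + 1) / 8 ≤
      Nat.card {c : Fin (1 + 1) → ZMod p // ∀ x, ll q x c ≠ 0} := by
  classical
  have h1 := ker_le (ll q none) (ll_ne le_rfl hq none)
  have h2 : ∀ c : Fin (1 + 1) → ZMod p, ll q none c ≠ 0 → ∀ x, ll q x c ≠ 0 := by
    intro c hc x
    have h3 := ll_one (fun k : Fin 2 × Fin (1 + 1) => if k.1 = 0 then c k.2 else q k.2) none
    have h4 := ll_one (fun k : Fin 2 × Fin (1 + 1) => if k.1 = 0 then c k.2 else q k.2) x
    simp only [Fin.isValue, one_ne_zero, if_false, if_true] at h3 h4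
    have h5 : q 0 * c 1 - q 1 * c 0 ≠ 0 := by
      intro h0
      apply hc
      rcases h3 with h3 | h3
      · rw [← h0]; exact h3
      · have h6 : ll q none c = -(q 0 * c 1 - q 1 * c 0) := h3
        rw [h6, h0, neg_zero]
    rcases h4 with h4 | h4
    · have h6 : ll q x c = q 0 * c 1 - q 1 * c 0 := h4
      rw [h6]
      exact h5
    · have h6 : ll q x c = -(q 0 * c 1 - q 1 * c 0) := h4
      rw [h6]
      exact neg_ne_zero.2 h5
  have h3 : Nat.card {c : Fin (1 + 1) → ZMod p // ll q none c ≠ 0} ≤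
      Nat.card {c : Fin (1 + 1) → ZMod p // ∀ x, ll q x c ≠ 0} :=
    Nat.card_le_card_of_injective (fun c => ⟨c.1, h2 c.1 c.2⟩) (by
      intro a b hab
      simp only [Subtype.mk.injEq] at hab
      exact Subtype.ext hab)
  have h4 : Nat.card {c : Fin (1 + 1) → ZMod p // ll q none c = 0} +
      Nat.card {c : Fin (1 + 1) → ZMod p // ll q none c ≠ 0} =
      Nat.card (Fin (1 + 1) → ZMod p) := by
    rw [Nat.card_eq_fintype_card, Nat.card_eq_fintype_card, Nat.card_eq_fintype_card,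
      Fintype.card_subtype_compl, Nat.add_sub_cancel' (Fintype.card_subtype_le _)]
  have hA := card_A (p := p) (d := 1)
  have h5 : (Nat.card {c : Fin (1 + 1) → ZMod p // ll q none c = 0} : ℝ) * p ≤
      (p : ℝ) ^ (1 + 1) := by
    rw [← hA]
    exact_mod_cast h1
  have h6 : (Nat.card {c : Fin (1 + 1) → ZMod p // ll q none c = 0} : ℝ) +
      Nat.card {c : Fin (1 + 1) → ZMod p // ll q none c ≠ 0} = (p : ℝ) ^ (1 + 1) := by
    rw [← hA]
    exact_mod_cast h4
  have h7 : (Nat.card {c : Fin (1 + 1) → ZMod p // ll q none c ≠ 0} : ℝ) ≤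
      Nat.card {c : Fin (1 + 1) → ZMod p // ∀ x, ll q x c ≠ 0} := by exact_mod_cast h3
  have hp8 : (8 : ℝ) ≤ p := by exact_mod_cast hp
  have h8 : (Nat.card {c : Fin (1 + 1) → ZMod p // ll q none c = 0} : ℝ) ≤ p := by
    have h9 : (p : ℝ) ^ (1 + 1) = p * p := by ring
    rw [h9] at h5
    exact le_of_mul_le_mul_right h5 (by linarith)
  have h9 : (p : ℝ) ≤ (p : ℝ) ^ (1 + 1) / 2 := by
    have h10 : (p : ℝ) ^ (1 + 1) = p * p := by ring
    rw [h10]
    nlinarith
  have h10 : (0 : ℝ) ≤ (p : ℝ) ^ (1 + 1) := by positivity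
  refine le_trans ?_ h7
  generalize (p : ℝ) ^ (1 + 1) = P2 at *
  linarith

theorem count_noCrit_one (hp : 8 ≤ p) :
    (1 / (16 * (1 : ℕ)) : ℝ) * (p : ℝ) ^ Fintype.card (Fin 2 × Fin (1 + 1)) ≤
      Nat.card {c : Fin 2 × Fin (1 + 1) → ZMod p // NoCrit c} := by
  classical
  let e : {c : Fin 2 × Fin (1 + 1) → ZMod p // NoCrit c} ≃
      Σ q : Fin (1 + 1) → ZMod p, {c : Fin (1 + 1) → ZMod p // ∀ x, ll q x c ≠ 0} :=
    { toFun := fun c => ⟨fun k => c.1 (1, k), ⟨fun k => c.1 (0, k), c.2⟩⟩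
      invFun := fun w => ⟨fun k => if k.1 = 0 then w.2.1 k.2 else w.1 k.2, by
        have h := w.2.2
        simpa [NoCrit] using h⟩
      left_inv := fun c => by
        apply Subtype.ext
        funext k
        obtain ⟨i, k⟩ := k
        fin_cases i <;> simp
      right_inv := fun w => by
        obtain ⟨q, c, hc⟩ := w
        simp }
  rw [Nat.card_congr e, Nat.card_sigma]
  have h1 := card_QGood (p := p) (d := 1) le_rfl (by omega)
  rw [Nat.card_eq_fintype_card, Fintype.card_subtype] at h1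
  have h2 : ∑ q ∈ univ.filter (fun q : Fin (1 + 1) → ZMod p => QGood q),
      (p : ℝ) ^ (1 + 1) / 8 ≤
      ((∑ q : Fin (1 + 1) → ZMod p,
        Nat.card {c : Fin (1 + 1) → ZMod p // ∀ x, ll q x c ≠ 0} : ℕ) : ℝ) := by
    push_cast
    have hsub : univ.filter (fun q : Fin (1 + 1) → ZMod p => QGood q) ⊆ univ :=
      Finset.filter_subset _ _
    refine le_trans ?_ (Finset.sum_le_sum_of_subset_of_nonneg hsub
      (fun q _ _ => Nat.cast_nonneg _))
    apply Finset.sum_le_sum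
    intro q hq
    have hq' : QGood q := by simpa using hq
    exact count_fixed_one hp hq'
  refine le_trans ?_ h2
  rw [Finset.sum_const, nsmul_eq_mul, Fintype.card_prod, Fintype.card_fin]
  have h3 : (p : ℝ) ^ (2 * 2) = (p : ℝ) ^ (1 + 1) * (p : ℝ) ^ (1 + 1) := by ring
  rw [h3]
  have h4 : (1 / (16 * (1 : ℕ)) : ℝ) * ((p : ℝ) ^ (1 + 1) * (p : ℝ) ^ (1 + 1)) =
      ((p : ℝ) ^ (1 + 1) / 2) * ((p : ℝ) ^ (1 + 1) / 8) := by
    push_cast
    ring
  rw [h4]
  apply mul_le_mul_of_nonneg_right h1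
  positivity

/-- The pairs with no critical point. -/
theorem count_noCrit {d : ℕ} (hd : 1 ≤ d) (hp : 8 * d ≤ p) :
    (1 / (16 * d) : ℝ) * (p : ℝ) ^ Fintype.card (Fin 2 × Fin (d + 1)) ≤
      Nat.card {c : Fin 2 × Fin (d + 1) → ZMod p // NoCrit c} := by
  rcases Nat.lt_or_ge d 3 with h | h
  · have h' : d = 1 ∨ d = 2 := by omega
    rcases h' with rfl | rfl
    · exact_mod_cast count_noCrit_one (p := p) (by omega)
    · exact_mod_cast count_noCrit_two (p := p) (by omega)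
  · exact count_noCrit_three h hp

end

end Pool.Agent.TH838.DS
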