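import Pool.Agent.H905R3.DML.Core
import Pool.Agent.TH838.DS.Cnt2

set_option autoImplicit false

/-!
Products of self-maps of the projective line in homogeneous coordinates.
-/

namespace Pool.Agent.TH838.DS

open MvPolynomial Pool.Agent.H936R2 Pool.Agent.H905R3.DML

/-- The binary form with coefficients `c`. -/
noncomputable def bf {R : Type} [CommRing R] {d : ℕ} (c : Fin (d + 1) → R) :
    MvPolynomial (Fin 2) R :=
  ∑ e : Fin (d + 1), C (c e) * (X 0 ^ (e : ℕ) * X 1 ^ (d - (e : ℕ)))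

/-- The pair of binary forms with coefficients `c`. -/
noncomputable def bs {R : Type} [CommRing R] {d : ℕ} (c : Fin 2 × Fin (d + 1) → R) :
    Fin 2 → MvPolynomial (Fin 2) R := fun j => bf fun e => c (j, e)

theorem eval_bf {R : Type} [CommRing R] {d : ℕ} (c : Fin (d + 1) → R) (x : Fin 2 → R) :
    eval x (bf c) = ∑ e : Fin (d + 1), c e * (x 0 ^ (e : ℕ) * x 1 ^ (d - (e : ℕ))) := by
  simp [bf]

theorem eval_d0 {R : Type} [CommRing R] {d : ℕ} (c : Fin (d + 1) → R) (x : Fin 2 → R) :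
    eval x (pderiv 0 (bf c)) =
      ∑ e : Fin (d + 1), c e * (((e : ℕ) : R) * x 0 ^ ((e : ℕ) - 1) * x 1 ^ (d - (e : ℕ))) := by
  unfold bf
  rw [map_sum, map_sum]
  refine Finset.sum_congr rfl fun e _ => ?_
  rw [pderiv_C_mul, Derivation.leibniz, Derivation.leibniz_pow, Derivation.leibniz_pow,
    pderiv_X_self, pderiv_X_of_ne (by decide : (1 : Fin 2) ≠ 0)]
  simp only [smul_eq_mul, mul_one, mul_zero, smul_zero, add_zero, zero_add, nsmul_eq_mul, map_mul,
    eval_C, map_pow, eval_X, map_natCast, map_add, map_zero]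
  ring

theorem eval_d1 {R : Type} [CommRing R] {d : ℕ} (c : Fin (d + 1) → R) (x : Fin 2 → R) :
    eval x (pderiv 1 (bf c)) =
      ∑ e : Fin (d + 1), c e *
        (x 0 ^ (e : ℕ) * (((d - (e : ℕ) : ℕ) : R) * x 1 ^ (d - (e : ℕ) - 1))) := by
  unfold bf
  rw [map_sum, map_sum]
  refine Finset.sum_congr rfl fun e _ => ?_
  rw [pderiv_C_mul, Derivation.leibniz, Derivation.leibniz_pow, Derivation.leibniz_pow,
    pderiv_X_self, pderiv_X_of_ne (by decide : (0 : Fin 2) ≠ 1)]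
  simp only [smul_eq_mul, mul_one, mul_zero, smul_zero, add_zero, zero_add, nsmul_eq_mul, map_mul,
    eval_C, map_pow, eval_X, map_natCast, map_add, map_zero]

/-- Euler's relation. -/
theorem euler {R : Type} [CommRing R] {d : ℕ} (c : Fin (d + 1) → R) (x : Fin 2 → R) :
    eval x (pderiv 0 (bf c)) * x 0 + eval x (pderiv 1 (bf c)) * x 1 = d * eval x (bf c) := by
  rw [eval_d0, eval_d1, eval_bf, Finset.sum_mul, Finset.sum_mul, ← Finset.sum_add_distrib,
    Finset.mul_sum]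
  refine Finset.sum_congr rfl fun e _ => ?_
  have he : (e : ℕ) ≤ d := by omega
  have h1 : ((e : ℕ) : R) * x 0 ^ ((e : ℕ) - 1) * x 0 = ((e : ℕ) : R) * x 0 ^ (e : ℕ) := by
    rcases Nat.eq_zero_or_pos (e : ℕ) with h | h
    · rw [h]; simp
    · rw [mul_assoc, ← pow_succ, Nat.sub_add_cancel h]
  have h2 : ((d - (e : ℕ) : ℕ) : R) * x 1 ^ (d - (e : ℕ) - 1) * x 1 =
      ((d - (e : ℕ) : ℕ) : R) * x 1 ^ (d - (e : ℕ)) := by
    rcases Nat.eq_zero_or_pos (d - (e : ℕ)) with h | h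
    · rw [h]; simp
    · rw [mul_assoc, ← pow_succ, Nat.sub_add_cancel h]
  have h3 : ((d - (e : ℕ) : ℕ) : R) = d - (e : ℕ) := by
    rw [Nat.cast_sub he]
  rw [h3] at h2
  rw [h3]
  linear_combination (c e * x 1 ^ (d - (e : ℕ))) * h1 + (c e * x 0 ^ (e : ℕ)) * h2

section

variable {p : ℕ} [Fact p.Prime] {d : ℕ}

theorem d0_aff (c : Fin (d + 1) → ZMod p) (x : Fin 2 → ZMod p) (h1 : x 1 ≠ 0) (hd : 1 ≤ d) :
    eval x (pderiv 0 (bf c)) =
      x 1 ^ (d - 1) * (Polynomial.derivative (po c)).eval (x 0 / x 1) := by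
  rw [eval_d0, ← ww_some]
  simp only [ww, LinearMap.sum_apply, LinearMap.smul_apply, LinearMap.proj_apply, smul_eq_mul]
  rw [Finset.mul_sum]
  refine Finset.sum_congr rfl fun e _ => ?_
  rcases Nat.eq_zero_or_pos (e : ℕ) with h | h
  · rw [h]; simp
  · have he : (e : ℕ) ≤ d := by omega
    have h2 : x 1 ^ (d - 1) = x 1 ^ ((e : ℕ) - 1) * x 1 ^ (d - (e : ℕ)) := by
      rw [← pow_add]
      congr 1
      omega
    rw [h2, div_pow]
    field_simp

theorem d1_aff (c : Fin (d + 1) → ZMod p) (x : Fin 2 → ZMod p) (h1 : x 1 ≠ 0) (hd : 1 ≤ d) :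
    eval x (pderiv 1 (bf c)) =
      x 1 ^ (d - 1) * (d * (po c).eval (x 0 / x 1) -
        x 0 / x 1 * (Polynomial.derivative (po c)).eval (x 0 / x 1)) := by
  have h2 := euler c x
  have h3 := d0_aff c x h1 hd
  have h4 : eval x (bf c) = x 1 ^ d * (po c).eval (x 0 / x 1) := by
    rw [eval_bf, ← uu_some]
    simp only [uu, LinearMap.sum_apply, LinearMap.smul_apply, LinearMap.proj_apply, smul_eq_mul]
    rw [Finset.mul_sum]
    refine Finset.sum_congr rfl fun e _ => ?_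
    have he : (e : ℕ) ≤ d := by omega
    have h2 : x 1 ^ d = x 1 ^ (e : ℕ) * x 1 ^ (d - (e : ℕ)) := by
      rw [← pow_add]
      congr 1
      omega
    rw [h2, div_pow]
    field_simp
  have h5 : x 1 ^ d = x 1 ^ (d - 1) * x 1 := by
    rw [← pow_succ, Nat.sub_add_cancel hd]
  apply mul_right_cancel₀ h1
  rw [h4, h3, h5] at h2
  have h6 : x 0 / x 1 * x 1 = x 0 := by field_simp
  linear_combination h2 + (x 1 ^ (d - 1) *
    (Polynomial.derivative (po c)).eval (x 0 / x 1)) * h6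

theorem d0_inf (c : Fin (d + 1) → ZMod p) (x : Fin 2 → ZMod p) (h1 : x 1 = 0) :
    eval x (pderiv 0 (bf c)) = d * x 0 ^ (d - 1) * uu none c := by
  rw [eval_d0, Finset.sum_eq_single (Fin.last d), uu_none]
  · rw [Fin.val_last, Nat.sub_self, pow_zero]
    ring
  · intro e _ he
    have h2 : (e : ℕ) < d := by
      have h3 : (e : ℕ) ≠ d := fun h => he (Fin.ext h)
      omega
    rw [h1, zero_pow (by omega)]
    ring
  · simp

theorem d1_inf (c : Fin (d + 1) → ZMod p) (x : Fin 2 → ZMod p) (h1 : x 1 = 0) (hd : 1 ≤ d) :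
    eval x (pderiv 1 (bf c)) = x 0 ^ (d - 1) * ww none c := by
  rw [eval_d1, Finset.sum_eq_single (⟨d - 1, by omega⟩ : Fin (d + 1)), ww_none]
  · have h2 : d - (d - 1) = 1 := by omega
    simp only [h2, Nat.sub_self, pow_zero, Nat.cast_one]
    ring
  · intro e _ he
    have h3 : (e : ℕ) ≠ d - 1 := fun h => he (Fin.ext h)
    rcases Nat.eq_zero_or_pos (d - (e : ℕ)) with h4 | h4
    · rw [h4]; simp
    · rw [h1, zero_pow (by omega)]
      ring
  · simp

theorem det_ne_zero {c : Fin 2 × Fin (d + 1) → ZMod p} (hc : NoCrit c) (hd : 1 ≤ d)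
    (hdp : (d : ZMod p) ≠ 0) {x : Fin 2 → ZMod p} (hx : x ≠ 0) : (jac (bs c) x).det ≠ 0 := by
  rw [Matrix.det_fin_two]
  simp only [jac, bs]
  by_cases h1 : x 1 = 0
  · have h0 : x 0 ≠ 0 := by
      intro h0
      apply hx
      funext j
      fin_cases j
      · exact h0
      · exact h1
    rw [d0_inf _ _ h1, d0_inf _ _ h1, d1_inf _ _ h1 hd, d1_inf _ _ h1 hd]
    have h2 := hc none
    rw [ll_apply] at h2
    intro h3
    apply h2
    have h4 : (d * (x 0 ^ (d - 1) * x 0 ^ (d - 1)) : ZMod p) ≠ 0 :=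
      mul_ne_zero hdp (mul_ne_zero (pow_ne_zero _ h0) (pow_ne_zero _ h0))
    apply (mul_eq_zero.1 (?_ : (d * (x 0 ^ (d - 1) * x 0 ^ (d - 1)) : ZMod p) *
      (uu none (fun e => c (1, e)) * ww none (fun e => c (0, e)) -
        ww none (fun e => c (1, e)) * uu none (fun e => c (0, e))) = 0)).resolve_left h4
    linear_combination -h3
  · rw [d0_aff _ _ h1 hd, d0_aff _ _ h1 hd, d1_aff _ _ h1 hd, d1_aff _ _ h1 hd]
    have h2 := hc (some (x 0 / x 1))
    rw [ll_apply, uu_some, uu_some, ww_some, ww_some] at h2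
    intro h3
    apply h2
    have h4 : (d * (x 1 ^ (d - 1) * x 1 ^ (d - 1)) : ZMod p) ≠ 0 :=
      mul_ne_zero hdp (mul_ne_zero (pow_ne_zero _ h1) (pow_ne_zero _ h1))
    apply (mul_eq_zero.1 (?_ : (d * (x 1 ^ (d - 1) * x 1 ^ (d - 1)) : ZMod p) * _ = 0)).resolve_left
      h4
    linear_combination h3

theorem pt_ne_zero {c : Fin 2 × Fin (d + 1) → ZMod p} (hc : NoCrit c) (hd : 1 ≤ d)
    (hdp : (d : ZMod p) ≠ 0) {x : Fin 2 → ZMod p} (hx : x ≠ 0) : pt (bs c) x ≠ 0 := by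
  intro h
  apply det_ne_zero hc hd hdp hx
  rw [← Matrix.exists_mulVec_eq_zero_iff]
  refine ⟨x, hx, ?_⟩
  funext j
  rw [Matrix.mulVec, dotProduct, Fin.sum_univ_two, Pi.zero_apply]
  have h1 := euler (fun e => c (j, e)) x
  have h2 : eval x (bf fun e => c (j, e)) = 0 := congrFun h j
  rw [h2, mul_zero] at h1
  exact h1

end

/-- Indices of the coefficients of a product of `N` rational functions of degrees `d i`. -/
abbrev Co (N : ℕ) (d : Fin N → ℕ) : Type := Σ i : Fin N, Fin 2 × Fin (d i + 1)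

/-- The self-map `(x_i) ↦ (f_i(x_(σ i)))`, in homogeneous coordinates. -/
noncomputable def ps {R : Type} [CommRing R] {N : ℕ} {d : Fin N → ℕ} (σ : Fin N → Fin N)
    (v : Co N d → R) : Fin N × Fin 2 → MvPolynomial (Fin N × Fin 2) R :=
  fun q => rename (fun k => (σ q.1, k)) (bs (fun e => v ⟨q.1, e⟩) q.2)

theorem map_bf {R S : Type} [CommRing R] [CommRing S] (φ : R →+* S) {d : ℕ}
    (c : Fin (d + 1) → R) : map φ (bf c) = bf fun e => φ (c e) := by
  simp [bf, map_sum]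

theorem map_ps {R S : Type} [CommRing R] [CommRing S] (φ : R →+* S) {N : ℕ} {d : Fin N → ℕ}
    (σ : Fin N → Fin N) (v : Co N d → R) (q : Fin N × Fin 2) :
    map φ (ps σ v q) = ps σ (fun i => φ (v i)) q := by
  unfold ps bs
  rw [map_rename, map_bf]

theorem modp_ps (p : ℕ) {N : ℕ} {d : Fin N → ℕ} (σ : Fin N → Fin N) (v : Co N d → ℤ) :
    modp p (ps σ v) = ps σ fun i => ((v i : ℤ) : ZMod p) := by
  funext q
  unfold modp
  rw [map_ps]
  rfl

section

variable {p : ℕ} {N : ℕ} {d : Fin N → ℕ} (σ : Fin N → Fin N)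

theorem pt_ps {R : Type} [CommRing R] (v : Co N d → R) (x : Fin N × Fin 2 → R) (i : Fin N) :
    (fun j => pt (ps σ v) x (i, j)) = pt (bs fun e => v ⟨i, e⟩) (fun j => x (σ i, j)) := by
  funext j
  simp only [pt, ps, eval_rename]
  rfl

theorem jac_ps_same (v : Co N d → ZMod p) (x : Fin N × Fin 2 → ZMod p) (i : Fin N) (a b : Fin 2) :
    jac (ps σ v) x (i, a) (σ i, b) =
      jac (bs fun e => v ⟨i, e⟩) (fun j => x (σ i, j)) a b := by
  simp only [jac, ps]
  have hinj : Function.Injective (fun k => ((σ i, k) : Fin N × Fin 2)) := by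
    intro k l hkl
    exact congrArg Prod.snd hkl
  have := pderiv_rename hinj b (bs (fun e => v ⟨i, e⟩) a)
  rw [this, eval_rename]
  rfl

theorem jac_ps_ne (v : Co N d → ZMod p) (x : Fin N × Fin 2 → ZMod p) (i j : Fin N)
    (hij : σ i ≠ j) (a b : Fin 2) : jac (ps σ v) x (i, a) (j, b) = 0 := by
  simp only [jac, ps]
  rw [pderiv_eq_zero_of_notMem_vars]
  · simp
  · intro hmem
    have := vars_rename _ _ hmem
    rw [Finset.mem_image] at this
    obtain ⟨k, -, hk⟩ := this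
    exact hij (congrArg Prod.fst hk)

theorem det_ps [Fact p.Prime] (hσ : Function.Surjective σ) (v : Co N d → ZMod p)
    (x : Fin N × Fin 2 → ZMod p)
    (h : ∀ i, (jac (bs fun e => v ⟨i, e⟩) (fun j => x (σ i, j))).det ≠ 0) :
    (jac (ps σ v) x).det ≠ 0 := by
  intro h0
  rw [← Matrix.exists_mulVec_eq_zero_iff] at h0
  obtain ⟨y, hy, hy0⟩ := h0
  apply hy
  funext q
  obtain ⟨i', b⟩ := q
  obtain ⟨i, rfl⟩ := hσ i'
  have h1 : (jac (bs fun e => v ⟨i, e⟩) (fun j => x (σ i, j))).mulVec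
      (fun j => y (σ i, j)) = 0 := by
    funext a
    have h2 := congrFun hy0 (i, a)
    rw [Matrix.mulVec, dotProduct, Fintype.sum_prod_type] at h2
    rw [Finset.sum_eq_single (σ i)] at h2
    · rw [Matrix.mulVec, dotProduct, Pi.zero_apply]
      rw [Pi.zero_apply] at h2
      rw [← h2]
      exact Finset.sum_congr rfl fun j _ => by rw [jac_ps_same]
    · intro j _ hj
      apply Finset.sum_eq_zero
      intro k _
      rw [jac_ps_ne σ v x i j hj.symm, zero_mul]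
    · simp
  by_contra hne
  apply h i
  rw [← Matrix.exists_mulVec_eq_zero_iff]
  exact ⟨fun j => y (σ i, j), fun hz => hne (congrFun hz b), h1⟩

theorem orbit_ne [Fact p.Prime] (v : Co N d → ZMod p) (hv : ∀ i, NoCrit fun e => v ⟨i, e⟩)
    (hd : ∀ i, 1 ≤ d i) (hdp : ∀ i, ((d i : ℕ) : ZMod p) ≠ 0) (w : Fin N × Fin 2 → ZMod p)
    (hw : ∀ i, (fun j => w (i, j)) ≠ 0) (k : ℕ) :
    ∀ i, (fun j => (pt (ps σ v))^[k] w (i, j)) ≠ 0 := by
  induction k with
  | zero => exact hw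
  | succ k ih =>
    intro i
    rw [Function.iterate_succ_apply']
    have h1 := pt_ps σ v ((pt (ps σ v))^[k] w) i
    rw [h1]
    exact pt_ne_zero (hv i) (hd i) (hdp i) (ih (σ i))

theorem orbit_det [Fact p.Prime] (hσ : Function.Surjective σ) (v : Co N d → ZMod p)
    (hv : ∀ i, NoCrit fun e => v ⟨i, e⟩)
    (hd : ∀ i, 1 ≤ d i) (hdp : ∀ i, ((d i : ℕ) : ZMod p) ≠ 0) (w : Fin N × Fin 2 → ZMod p)
    (hw : ∀ i, (fun j => w (i, j)) ≠ 0) (k : ℕ) :
    (jac (ps σ v) ((pt (ps σ v))^[k] w)).det ≠ 0 := by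
  apply det_ps σ hσ
  intro i
  exact det_ne_zero (hv i) (hd i) (hdp i) (orbit_ne σ v hv hd hdp w hw k (σ i))

/-- The criterion for integral primitive homogeneous coordinates. -/
theorem dml_prim [Fact p.Prime] (hσ : Function.Surjective σ) (v : Co N d → ℤ)
    (hv : ∀ i, NoCrit fun e : Fin 2 × Fin (d i + 1) => ((v ⟨i, e⟩ : ℤ) : ZMod p))
    (hd : ∀ i, 1 ≤ d i) (hdp : ∀ i, ((d i : ℕ) : ZMod p) ≠ 0) (α : Fin N × Fin 2 → ℂ)
    (τ : ℂ →+* PadicAlgCl p) (y : Fin N × Fin 2 → ℤ_[p])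
    (hy : ∀ q, τ (α q) = algebraMap ℚ_[p] (PadicAlgCl p) (y q : ℚ_[p]))
    (hy1 : ∀ i, (fun j => PadicInt.toZMod (y (i, j))) ≠ 0) : DMLAt (ps σ v) α := by
  apply Core.taskCore p (Fin N × Fin 2) (ps σ v) α τ y hy
  refine ⟨0, fun k _ => ?_⟩
  rw [modp_ps]
  exact orbit_det σ hσ (fun i => ((v i : ℤ) : ZMod p)) hv hd hdp _ hy1 k

end

end Pool.Agent.TH838.DS
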