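import Pool.Agent.TH838.DS.QCnt
import Pool.Agent.H684R3.Smo.Task1
import Pool.Agent.H684R3.Smo.Task2
import Pool.Agent.H684R3.Smo.Task3
import Pool.Agent.H684R3.Smo.Task4
import Pool.Agent.H684R3.Smo.Task5
import Pool.Agent.H684R3.Smo.Task9

set_option autoImplicit false

/-!
The sieve for tuples of quadratic rational functions.
-/

namespace Pool.Agent.TH838.DS

open Pool.Agent.H684R3.Smo

theorem sieve_good {ι J : Type} [Fintype ι] [DecidableEq ι] [Fintype J] [DecidableEq J]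
    [Nonempty ι] (e : J ≃ ι × (Fin 2 × Fin (2 + 1))) :
    ∃ δ : ℝ, 0 < δ ∧ ∃ H₀ : ℕ, ∀ H : ℕ, H₀ ≤ H → ∀ b : J → ℤ,
      (Nat.card {v : J → ℤ // (∀ i, |v i - b i| ≤ (H : ℤ)) ∧
        ¬ ∃ (p : ℕ) (_ : Fact p.Prime), p ≠ 2 ∧
          GoodT fun (i : ι) (q : Fin 2 × Fin (2 + 1)) => ((v (e.symm (i, q)) : ℤ) : ZMod p)} : ℝ) ≤
          (H : ℝ) ^ (-δ) * (2 * H + 1 : ℝ) ^ Fintype.card J := by
  classical
  set k := Fintype.card ι with hk
  have hcard : Fintype.card J = 6 * k := by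
    rw [Fintype.card_congr e, Fintype.card_prod, Fintype.card_prod, Fintype.card_fin,
      Fintype.card_fin, ← hk]
    ring
  let P : ℕ → Prop := fun p => p.Prime ∧ 2 * 16 ^ k ≤ p
  let G : ∀ p : ℕ, Set (J → ZMod p) := fun p =>
    {w | ∃ _ : Fact p.Prime, GoodT fun (i : ι) (q : Fin 2 × Fin (2 + 1)) => w (e.symm (i, q))}
  set κ : ℝ := 1 / (2 * 4 ^ k * 16 ^ (k * k)) with hκ
  have hκ0 : 0 < κ := by positivity
  have hG : ∀ p, P p → p.Prime ∧ κ * (p : ℝ) ^ Fintype.card J ≤ (Nat.card (G p) : ℝ) := by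
    intro p hp
    haveI hpp : Fact p.Prime := ⟨hp.1⟩
    refine ⟨hp.1, ?_⟩
    have h1 := count_good (p := p) (ι := ι) hp.2
    rw [← hk] at h1
    rw [hcard]
    refine h1.trans (le_of_eq ?_)
    congr 1
    let E : (ι → Fin 2 × Fin (2 + 1) → ZMod p) ≃ (J → ZMod p) :=
      { toFun := fun c j => c (e j).1 (e j).2
        invFun := fun w i q => w (e.symm (i, q))
        left_inv := fun c => by
          funext i q
          simp
        right_inv := fun w => by
          funext j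
          simp }
    refine Nat.card_congr (E.subtypeEquiv fun c => ?_)
    have h2 : (fun (i : ι) (q : Fin 2 × Fin (2 + 1)) => E c (e.symm (i, q))) = c := by
      funext i q
      simp [E]
    constructor
    · intro h
      refine ⟨hpp, ?_⟩
      rw [h2]
      exact h
    · rintro ⟨_, h⟩
      rw [h2] at h
      exact h
  obtain ⟨δ, hδ, H₀, hH₀⟩ := (t5 (t4 (t3 t1 t2))) J P G κ (1 / 2) 4 hκ0
    (by norm_num) (by norm_num) (by norm_num) hG (t9 (1 / 2) (2 * 16 ^ k) (by norm_num))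
  refine ⟨δ, hδ, H₀, fun H hH b => ?_⟩
  rw [mul_comm]
  refine le_trans ?_ (hH₀ H hH b)
  have hfin : Finite {v : J → ℤ // v ∈ bx b H ∧ ∀ p, P p →
      (p : ℝ) ≤ Real.log H ^ (4 : ℝ) → (fun i => (v i : ZMod p)) ∉ G p} :=
    Set.Finite.subset (Finset.finite_toSet (bx b H)) fun v hv => hv.1
  have hle := Nat.card_le_card_of_injective
    (fun v : {v : J → ℤ // (∀ i, |v i - b i| ≤ (H : ℤ)) ∧
        ¬ ∃ (p : ℕ) (_ : Fact p.Prime), p ≠ 2 ∧
          GoodT fun (i : ι) (q : Fin 2 × Fin (2 + 1)) => ((v (e.symm (i, q)) : ℤ) : ZMod p)} =>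
      (⟨v.1, by
        simp only [bx, Fintype.mem_piFinset, Finset.mem_Icc]
        intro i
        have := abs_le.1 (v.2.1 i)
        constructor <;> linarith [this.1, this.2], fun p hp _ ⟨hpp, h⟩ => v.2.2 ⟨p, hpp, by
          have h1 : 16 ^ 1 ≤ 16 ^ k := Nat.pow_le_pow_right (by norm_num) Fintype.card_pos
          have h2 := hp.2
          omega, h⟩⟩ : {v : J → ℤ // v ∈ bx b H ∧ ∀ p, P p →
      (p : ℝ) ≤ Real.log H ^ (4 : ℝ) → (fun i => (v i : ZMod p)) ∉ G p}))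
    (fun v w hvw => Subtype.ext (congrArg (fun z => z.1) hvw))
  exact_mod_cast hle

end Pool.Agent.TH838.DS
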