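import Mathlib

set_option autoImplicit false

/-!
The symmetric powers of a quadratic rational function, through resultants.
-/

namespace Pool.Agent.TH838.DS.Sy

open Polynomial

section res

variable {S : Type} [CommRing S]

theorem res_mul (f₁ f₂ g : S[X]) (m₁ m₂ n : ℕ) (h1 : f₁.natDegree ≤ m₁) (h2 : f₂.natDegree ≤ m₂)
    (hn : g.natDegree ≤ n) :
    resultant (f₁ * f₂) g (m₁ + m₂) n = resultant f₁ g m₁ n * resultant f₂ g m₂ n := by
  obtain ⟨k₁, rfl⟩ := Nat.exists_eq_add_of_le h1
  obtain ⟨k₂, rfl⟩ := Nat.exists_eq_add_of_le h2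
  have e : f₁.natDegree + k₁ + (f₂.natDegree + k₂) =
      f₁.natDegree + f₂.natDegree + (k₁ + k₂) := by ring
  rw [e, resultant_add_left_deg _ _ _ _ _ natDegree_mul_le, resultant_add_left_deg _ _ _ _ _ le_rfl,
    resultant_add_left_deg _ _ _ _ _ le_rfl, resultant_mul_left _ _ _ _ hn]
  ring

theorem res_prod (g : S[X]) (n : ℕ) (hn : g.natDegree ≤ n) (N : ℕ) (A : Fin N → S[X])
    (hA : ∀ i, (A i).natDegree ≤ 1) :
    resultant (∏ i, A i) g N n = ∏ i, resultant (A i) g 1 n := by
  induction N with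
  | zero =>
    simp
  | succ N ih =>
    have h1 : (∏ i : Fin N, A i.succ).natDegree ≤ N := by
      refine (natDegree_prod_le _ _).trans ?_
      refine (Finset.sum_le_card_nsmul _ _ 1 fun i _ => hA _).trans ?_
      simp
    have h2 := res_mul (A 0) (∏ i : Fin N, A i.succ) g 1 N n (hA 0) h1 hn
    rw [Nat.add_comm 1 N] at h2
    rw [Fin.prod_univ_succ, Fin.prod_univ_succ, h2, ih _ fun i => hA _]

theorem res_one (a b : S) (g : S[X]) :
    resultant (C a + C b * X) g 1 2 = g.coeff 0 * b ^ 2 - g.coeff 1 * (a * b) + g.coeff 2 * a ^ 2 := by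
  rw [resultant, Matrix.det_fin_three]
  simp [sylvester, Fin.addCases]
  ring

end res

section

variable {R : Type} [CommRing R]

/-- `∏ (x_{i0} + x_{i1} T)` -/
noncomputable def fp {N : ℕ} (x : Fin N → Fin 2 → R) : R[X] :=
  ∏ i, (C (x i 0) + C (x i 1) * X)

/-- its coefficients -/
noncomputable def form {N : ℕ} (x : Fin N → Fin 2 → R) : Fin (N + 1) → R := fun j =>
  (fp x).coeff j

/-- the pair of quadratic forms with coefficients `v` -/
def qm (v : Fin 2 × Fin (2 + 1) → R) (y : Fin 2 → R) : Fin 2 → R :=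
  fun j => ∑ e : Fin (2 + 1), v (j, e) * (y 0 ^ (e : ℕ) * y 1 ^ (2 - (e : ℕ)))

theorem natDegree_fp {N : ℕ} (x : Fin N → Fin 2 → R) : (fp x).natDegree ≤ N := by
  unfold fp
  refine (natDegree_prod_le _ _).trans ?_
  refine (Finset.sum_le_card_nsmul _ _ 1 fun i _ => ?_).trans ?_
  · compute_degree
  · simp

noncomputable def ap {N : ℕ} (a : Fin (N + 1) → R) : R[X][X] :=
  ∑ j : Fin (N + 1), C (C (a j)) * X ^ (j : ℕ)

noncomputable def bq (v : Fin 2 × Fin (2 + 1) → R) : R[X][X] :=
  ∑ e : Fin (2 + 1), C (C (v (0, e)) + C (v (1, e)) * X) * (-X) ^ (e : ℕ)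

noncomputable def RR {N : ℕ} (a : Fin (N + 1) → R) (v : Fin 2 × Fin (2 + 1) → R) : R[X] :=
  resultant (ap a) (bq v) N 2

theorem map_ap {S : Type} [CommRing S] (φ : R →+* S) {N : ℕ} (a : Fin (N + 1) → R) :
    (ap a).map (mapRingHom φ) = ap fun j => φ (a j) := by
  simp [ap, Polynomial.map_sum]

theorem map_bq {S : Type} [CommRing S] (φ : R →+* S) (v : Fin 2 × Fin (2 + 1) → R) :
    (bq v).map (mapRingHom φ) = bq fun j => φ (v j) := by
  simp [bq, Polynomial.map_sum]

theorem map_RR {S : Type} [CommRing S] (φ : R →+* S) {N : ℕ} (a : Fin (N + 1) → R)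
    (v : Fin 2 × Fin (2 + 1) → R) :
    (RR a v).map φ = RR (fun j => φ (a j)) fun j => φ (v j) := by
  unfold RR
  rw [← map_ap, ← map_bq, resultant_map_map]
  rfl

theorem bq_coeff (v : Fin 2 × Fin (2 + 1) → R) :
    (bq v).coeff 0 = C (v (0, 0)) + C (v (1, 0)) * X ∧
    (bq v).coeff 1 = -(C (v (0, 1)) + C (v (1, 1)) * X) ∧
    (bq v).coeff 2 = C (v (0, 2)) + C (v (1, 2)) * X := by
  have h : bq v = C (C (v (0, 0)) + C (v (1, 0)) * X) + C (-(C (v (0, 1)) + C (v (1, 1)) * X)) * X +
      C (C (v (0, 2)) + C (v (1, 2)) * X) * X ^ 2 := by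
    rw [bq, Fin.sum_univ_three]
    simp only [Fin.val_zero, Fin.val_one, Fin.val_two, pow_zero, mul_one, pow_one, map_neg]
    ring
  rw [h]
  refine ⟨?_, ?_, ?_⟩
  · simp only [coeff_add, coeff_C_zero, coeff_C_mul, coeff_X_zero, coeff_X_pow]
    simp
  · simp only [coeff_add, coeff_C_mul, coeff_X_one, coeff_X_pow, coeff_C_succ]
    simp [coeff_C]
  · simp only [coeff_add, coeff_C_mul, coeff_X_pow]
    simp [coeff_C, coeff_X]

theorem natDegree_bq (v : Fin 2 × Fin (2 + 1) → R) : (bq v).natDegree ≤ 2 := by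
  unfold bq
  apply natDegree_sum_le_of_forall_le
  intro e _
  have he : (e : ℕ) ≤ 2 := by omega
  refine (natDegree_C_mul_le _ _).trans ?_
  have h1 : ((-X : R[X][X]) ^ (e : ℕ)).natDegree ≤ (e : ℕ) * (-X : R[X][X]).natDegree :=
    natDegree_pow_le
  rw [natDegree_neg] at h1
  have h2 : (X : R[X][X]).natDegree ≤ 1 := natDegree_X_le
  nlinarith

theorem ap_form {N : ℕ} (x : Fin N → Fin 2 → R) :
    ap (form x) = ∏ i, (C (C (x i 0)) + C (C (x i 1)) * X) := by
  have h1 : (∏ i, (C (C (x i 0)) + C (C (x i 1)) * X) : R[X][X]) = (fp x).map C := by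
    simp [fp, Polynomial.map_prod]
  rw [h1, (fp x).as_sum_range' (N + 1) (Nat.lt_succ_of_le (natDegree_fp x)), Polynomial.map_sum,
    Finset.sum_range]
  unfold ap
  refine Finset.sum_congr rfl fun j _ => ?_
  rw [← C_mul_X_pow_eq_monomial]
  simp [form]

/-- The key identity. -/
theorem RR_form {N : ℕ} (x : Fin N → Fin 2 → R) (v : Fin 2 × Fin (2 + 1) → R) :
    RR (form x) v = fp fun i => qm v (x i) := by
  unfold RR
  rw [ap_form, res_prod _ _ (natDegree_bq v) _ _ (fun i => by compute_degree)]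
  unfold fp
  refine Finset.prod_congr rfl fun i _ => ?_
  obtain ⟨h0, h1, h2⟩ := bq_coeff v
  rw [res_one, h0, h1, h2]
  simp only [qm]
  rw [Fin.sum_univ_three, Fin.sum_univ_three]
  simp only [Fin.val_zero, Fin.val_one, Fin.val_two, pow_zero, pow_one, map_add, map_mul, map_pow,
    map_one]
  ring

theorem RR_smul {N : ℕ} (t : R) (a : Fin (N + 1) → R) (v : Fin 2 × Fin (2 + 1) → R) :
    RR (fun j => t * a j) v = C (t ^ 2) * RR a v := by
  unfold RR
  have h : ap (fun j => t * a j) = C (C t) * ap a := by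
    unfold ap
    rw [Finset.mul_sum]
    refine Finset.sum_congr rfl fun j _ => ?_
    rw [C_mul, C_mul, mul_assoc]
  rw [h, resultant_C_mul_left, map_pow]

end

/-- The `N`-th symmetric power of a quadratic rational function, as a system of forms. -/
noncomputable def sF {N : ℕ} (v : Fin 2 × Fin (2 + 1) → ℂ) :
    Fin (N + 1) → MvPolynomial (Fin (N + 1)) ℂ := fun j =>
  (RR (fun i => MvPolynomial.X i) fun q => MvPolynomial.C (v q)).coeff j

theorem eval_sF {N : ℕ} (v : Fin 2 × Fin (2 + 1) → ℂ) (a : Fin (N + 1) → ℂ) (j : Fin (N + 1)) :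
    MvPolynomial.eval a (sF v j) = (RR a v).coeff j := by
  have h := map_RR (MvPolynomial.eval a) (fun i : Fin (N + 1) => MvPolynomial.X (R := ℂ) i)
    fun q => MvPolynomial.C (v q)
  simp only [MvPolynomial.eval_X, MvPolynomial.eval_C] at h
  rw [← h, coeff_map]
  rfl

theorem sF_form {N : ℕ} (v : Fin 2 × Fin (2 + 1) → ℂ) (x : Fin N → Fin 2 → ℂ) :
    (fun j => MvPolynomial.eval (form x) (sF v j)) = form fun i => qm v (x i) := by
  funext j
  rw [eval_sF, RR_form]
  rfl

theorem homog_of_eval {n : ℕ} {ι : Type} [Fintype ι] (P : MvPolynomial ι ℂ)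
    (h : ∀ (t : ℂ) (a : ι → ℂ), MvPolynomial.eval (fun i => t * a i) P =
      t ^ n * MvPolynomial.eval a P) : P.IsHomogeneous n := by
  have key : ∀ m, m ≠ n → MvPolynomial.homogeneousComponent m P = 0 := by
    intro m hm
    apply MvPolynomial.funext
    intro a
    rw [map_zero]
    let q : ℂ[X] := (∑ k ∈ Finset.range (P.totalDegree + 1),
      C (MvPolynomial.eval a (MvPolynomial.homogeneousComponent k P)) * X ^ k) -
        C (MvPolynomial.eval a P) * X ^ n
    have hq : q = 0 := by
      apply Polynomial.funext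
      intro t
      rw [eval_zero]
      simp only [q, eval_sub, eval_finsetSum, eval_mul, eval_C, eval_pow, eval_X]
      have h1 := h t a
      have h2 : MvPolynomial.eval (fun i => t * a i) P = ∑ k ∈ Finset.range (P.totalDegree + 1),
          MvPolynomial.eval a (MvPolynomial.homogeneousComponent k P) * t ^ k := by
        conv_lhs => rw [← MvPolynomial.sum_homogeneousComponent P]
        rw [map_sum]
        refine Finset.sum_congr rfl fun k _ => ?_
        have h3 := (MvPolynomial.homogeneousComponent_isHomogeneous k P)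
        rw [MvPolynomial.eval_eq, MvPolynomial.eval_eq, Finset.sum_mul]
        apply Finset.sum_congr rfl
        intro κ hκ
        have hdeg : κ.degree = k := by
          have := h3 (MvPolynomial.mem_support_iff.1 hκ)
          rw [Finsupp.degree_eq_weight_one]; exact this
        have h4 : ∏ j ∈ κ.support, (t * a j) ^ κ j =
            t ^ k * ∏ j ∈ κ.support, (a j) ^ κ j := by
          rw [Finset.prod_congr rfl fun j _ => mul_pow _ _ _, Finset.prod_mul_distrib,
            Finset.prod_pow_eq_pow_sum]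
          congr 2
        rw [h4]
        ring
      rw [← h2, h1]
      ring
    by_cases hmd : m ∈ Finset.range (P.totalDegree + 1)
    · have h1 : q.coeff m = MvPolynomial.eval a (MvPolynomial.homogeneousComponent m P) := by
        simp only [q, coeff_sub, finsetSum_coeff, coeff_C_mul, coeff_X_pow]
        rw [Finset.sum_eq_single m]
        · rw [if_pos rfl, if_neg hm]
          ring
        · intro k _ hk
          rw [if_neg (Ne.symm hk), mul_zero]
        · intro h
          exact absurd hmd h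
      rw [← h1, hq, coeff_zero]
    · rw [MvPolynomial.homogeneousComponent_eq_zero, map_zero]
      rw [Finset.mem_range] at hmd
      omega
  rw [← MvPolynomial.sum_homogeneousComponent P]
  apply MvPolynomial.IsHomogeneous.sum
  intro k _
  by_cases hk : k = n
  · rw [hk]
    exact MvPolynomial.homogeneousComponent_isHomogeneous n P
  · rw [key k hk]
    exact MvPolynomial.isHomogeneous_zero _ _ _

theorem sF_homog {N : ℕ} (v : Fin 2 × Fin (2 + 1) → ℂ) (j : Fin (N + 1)) :
    (sF v j).IsHomogeneous 2 := by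
  apply homog_of_eval
  intro t a
  rw [eval_sF, eval_sF, RR_smul, coeff_C_mul]

/-- Every binary form is a product of linear forms. -/
theorem exists_factor (N : ℕ) (g : ℂ[X]) (hg : g ≠ 0) (hN : g.natDegree ≤ N) :
    ∃ (c : ℂ) (x : Fin N → Fin 2 → ℂ), c ≠ 0 ∧ (∀ i, x i ≠ 0) ∧ g = C c * fp x := by
  induction N generalizing g with
  | zero =>
    obtain ⟨c, hc⟩ := natDegree_eq_zero.1 (Nat.le_zero.1 hN)
    refine ⟨c, fun i => i.elim0, ?_, fun i => i.elim0, ?_⟩
    · rintro rfl
      apply hg
      rw [← hc, map_zero]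
    · simp [fp, hc]
  | succ N ih =>
    by_cases hle : g.natDegree ≤ N
    · obtain ⟨c, x, hc, hx, hgx⟩ := ih g hg hle
      refine ⟨c, Fin.cons ![1, 0] x, hc, ?_, ?_⟩
      · intro i
        refine Fin.cases ?_ (fun i => ?_) i
        · intro h
          have := congrFun h 0
          simp at this
        · exact hx i
      · rw [hgx]
        simp [fp, Fin.prod_univ_succ]
    · have hdeg : g.degree ≠ 0 := by
        intro h
        rw [degree_eq_natDegree hg] at h
        have : g.natDegree = 0 := by exact_mod_cast h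
        omega
      obtain ⟨r, hr⟩ := IsAlgClosed.exists_root g hdeg
      obtain ⟨g', rfl⟩ := dvd_iff_isRoot.2 hr
      have hg' : g' ≠ 0 := by
        rintro rfl
        simp at hg
      have hd' : g'.natDegree ≤ N := by
        rw [natDegree_mul (X_sub_C_ne_zero r) hg', natDegree_X_sub_C] at hN
        omega
      obtain ⟨c, x, hc, hx, hgx⟩ := ih g' hg' hd'
      refine ⟨c, Fin.cons ![-r, 1] x, hc, ?_, ?_⟩
      · intro i
        refine Fin.cases ?_ (fun i => ?_) i
        · intro h
          have := congrFun h 1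
          simp at this
        · exact hx i
      · rw [hgx]
        simp only [fp, Fin.prod_univ_succ, Fin.cons_zero, Fin.cons_succ, Matrix.cons_val_zero,
          Matrix.cons_val_one, map_neg, map_one]
        ring

theorem exists_form (N : ℕ) (hN : 1 ≤ N) (a : Fin (N + 1) → ℂ) (ha : a ≠ 0) :
    ∃ x : Fin N → Fin 2 → ℂ, (∀ i, x i ≠ 0) ∧ a = form x := by
  let g : ℂ[X] := ∑ j : Fin (N + 1), C (a j) * X ^ (j : ℕ)
  have hcoef : ∀ j : Fin (N + 1), g.coeff j = a j := by
    intro j
    simp only [g, finsetSum_coeff, coeff_C_mul, coeff_X_pow]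
    rw [Finset.sum_eq_single j]
    · simp
    · intro k _ hk
      rw [if_neg (fun h => hk (Fin.ext h.symm)), mul_zero]
    · simp
  have hg : g ≠ 0 := by
    intro h
    apply ha
    funext j
    rw [← hcoef j, h, coeff_zero]
    rfl
  have hd : g.natDegree ≤ N := by
    apply natDegree_sum_le_of_forall_le
    intro j _
    exact (natDegree_C_mul_X_pow_le _ _).trans (by omega)
  obtain ⟨c, x, hc, hx, hgx⟩ := exists_factor N g hg hd
  obtain ⟨M, rfl⟩ : ∃ M, N = M + 1 := ⟨N - 1, by omega⟩
  refine ⟨Fin.cons (fun k => c * x 0 k) (fun i => x i.succ), ?_, ?_⟩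
  · intro i
    refine Fin.cases ?_ (fun i => hx _) i
    intro h
    apply hx 0
    funext k
    have h1 := congrFun h k
    simp only [Fin.cons_zero, Pi.zero_apply] at h1
    exact (mul_eq_zero.1 h1).resolve_left hc
  · funext j
    rw [← hcoef j, hgx]
    unfold form
    congr 1
    simp only [fp, Fin.prod_univ_succ, Fin.cons_zero, Fin.cons_succ, map_mul]
    ring

end Pool.Agent.TH838.DS.Sy
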