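import Pool.Agent.TH838.DS.QCnt
import Pool.Agent.H936R2.Crit2

set_option autoImplicit false

/-!
The Dynamical Mordell-Lang property at all complex points of `(ℙ^1)^N`.
-/

namespace Pool.Agent.TH838.DS

open MvPolynomial Pool.Agent.H936R2 Pool.Agent.H905R3.DML Pool.Agent.H905R3.DML.Core

section

variable {K : Type} [Field K] {N : ℕ} {d : Fin N → ℕ} (σ : Fin N → Fin N)

theorem jac_ps_same' (v : Co N d → K) (x : Fin N × Fin 2 → K) (i : Fin N) (a b : Fin 2) :
    jac (ps σ v) x (i, a) (σ i, b) =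
      jac (bs fun e => v ⟨i, e⟩) (fun j => x (σ i, j)) a b := by
  simp only [jac, ps]
  have hinj : Function.Injective (fun k => ((σ i, k) : Fin N × Fin 2)) := by
    intro k l hkl
    exact congrArg Prod.snd hkl
  have := pderiv_rename hinj b (bs (fun e => v ⟨i, e⟩) a)
  rw [this, eval_rename]
  rfl

theorem jac_ps_ne' (v : Co N d → K) (x : Fin N × Fin 2 → K) (i j : Fin N)
    (hij : σ i ≠ j) (a b : Fin 2) : jac (ps σ v) x (i, a) (j, b) = 0 := by
  simp only [jac, ps]
  rw [pderiv_eq_zero_of_notMem_vars]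
  · simp
  · intro hmem
    have := vars_rename _ _ hmem
    rw [Finset.mem_image] at this
    obtain ⟨k, -, hk⟩ := this
    exact hij (congrArg Prod.fst hk)

theorem det_ps' (hσ : Function.Surjective σ) (v : Co N d → K)
    (x : Fin N × Fin 2 → K) (h0 : (jac (ps σ v) x).det = 0) :
    ∃ i, (jac (bs fun e => v ⟨i, e⟩) (fun j => x (σ i, j))).det = 0 := by
  by_contra hcon
  push Not at hcon
  rw [← Matrix.exists_mulVec_eq_zero_iff] at h0
  obtain ⟨y, hy, hy0⟩ := h0
  apply hy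
  funext q
  obtain ⟨i', b⟩ := q
  obtain ⟨i, rfl⟩ := hσ i'
  have h1 : (jac (bs fun e => v ⟨i, e⟩) (fun j => x (σ i, j))).mulVec
      (fun j => y (σ i, j)) = 0 := by
    funext a
    have h2 := congrFun hy0 (i, a)
    rw [Matrix.mulVec, dotProduct, Fintype.sum_prod_type] at h2
    rw [Finset.sum_eq_single (σ i)] at h2
    · rw [Matrix.mulVec, dotProduct, Pi.zero_apply]
      rw [Pi.zero_apply] at h2
      rw [← h2]
      exact Finset.sum_congr rfl fun j _ => by rw [jac_ps_same']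
    · intro j _ hj
      apply Finset.sum_eq_zero
      intro k _
      rw [jac_ps_ne' σ v x i j hj.symm, zero_mul]
    · simp
  by_contra hne
  apply hcon i
  rw [← Matrix.exists_mulVec_eq_zero_iff]
  exact ⟨fun j => y (σ i, j), fun hz => hne (congrFun hz b), h1⟩

theorem orbit_ne' (v : Co N d → K)
    (hc : ∀ i (z : Fin 2 → K), z ≠ 0 → pt (bs fun e => v ⟨i, e⟩) z ≠ 0)
    (w : Fin N × Fin 2 → K) (hw : ∀ i, (fun j => w (i, j)) ≠ 0) (k : ℕ) :
    ∀ i, (fun j => (pt (ps σ v))^[k] w (i, j)) ≠ 0 := by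
  induction k with
  | zero => exact hw
  | succ k ih =>
    intro i
    rw [Function.iterate_succ_apply']
    have h1 := pt_ps σ v ((pt (ps σ v))^[k] w) i
    rw [h1]
    exact hc i _ (ih (σ i))

end

theorem exists_order {X : Type} [Finite X] (f : X → X) (hf : Function.Injective f) :
    ∃ m : ℕ, 1 ≤ m ∧ ∀ x, f^[m] x = x := by
  haveI : Finite (X → X) := inferInstance
  obtain ⟨a, b, hab, h⟩ := Finite.exists_ne_map_eq_of_infinite (fun k : ℕ => f^[k])
  wlog hlt : a < b generalizing a b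
  · exact this b a hab.symm h.symm (by omega)
  refine ⟨b - a, by omega, fun x => ?_⟩
  apply hf.iterate a
  rw [← Function.iterate_add_apply]
  have e1 : a + (b - a) = b := by omega
  rw [e1]
  exact (congrFun h x).symm

section

variable {p : ℕ} [Fact p.Prime] {K : Type} [Field K] (φ : ZMod p →+* K)

theorem eval_bs_scale {d : ℕ} (c : Fin 2 × Fin (d + 1) → ZMod p) (l : K) (y : Fin 2 → ZMod p)
    (j : Fin 2) : eval (fun i => l * φ (y i)) (bs (fun e => φ (c e)) j) =
      l ^ d * φ (eval y (bs c j)) := by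
  rw [bs, bs, eval_bf, eval_bf, map_sum, Finset.mul_sum]
  refine Finset.sum_congr rfl fun e _ => ?_
  have he : (e : ℕ) ≤ d := by omega
  have h : l ^ d = l ^ (e : ℕ) * l ^ (d - (e : ℕ)) := by
    rw [← pow_add]
    congr 1
    omega
  rw [h, mul_pow, mul_pow, map_mul, map_mul, map_pow, map_pow]
  ring

/-- a multiple of a rational nonzero vector -/
def Rat (u : Fin 2 → K) : Prop :=
  ∃ (l : K) (y : Fin 2 → ZMod p), l ≠ 0 ∧ y ≠ 0 ∧ u = fun i => l * φ (y i)

theorem rat_step {d : ℕ} (c : Fin 2 × Fin (d + 1) → ZMod p)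
    (hc : ∀ z : Fin 2 → K, z ≠ 0 → pt (bs fun e => φ (c e)) z ≠ 0) {u : Fin 2 → K}
    (hu : Rat φ u) : Rat φ (pt (bs fun e => φ (c e)) u) := by
  obtain ⟨l, y, hl, hy, rfl⟩ := hu
  refine ⟨l ^ d, pt (bs c) y, pow_ne_zero _ hl, ?_, ?_⟩
  · intro h0
    apply hc (fun i => φ (y i)) (by
      intro h1
      apply hy
      funext i
      exact (map_eq_zero φ).1 (congrFun h1 i))
    funext j
    have h2 := eval_bs_scale φ c 1 y j
    simp only [one_mul, one_pow] at h2
    change eval (fun i => φ (y i)) (bs (fun e => φ (c e)) j) = 0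
    rw [h2]
    have h3 : eval y (bs c j) = 0 := congrFun h0 j
    rw [h3, map_zero]
  · funext j
    exact eval_bs_scale φ c l y j

variable {N : ℕ} {d : Fin N → ℕ}

/-- Periodic points are not critical. -/
theorem periodic_det (σ : Fin N → Fin N) (hσ : Function.Surjective σ) (v : Co N d → ZMod p)
    (C : Set (ZMod p))
    (ha : ∀ i (z : Fin 2 → K), z ≠ 0 → (jac (bs fun e => φ (v ⟨i, e⟩)) z).det = 0 →
      ∃ x ∈ C, z 0 = φ x * z 1)
    (hb : ∀ i, ∀ x ∈ C, ∀ y : Fin 2 → ZMod p, y ≠ 0 →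
      eval y (bs (fun e => v ⟨i, e⟩) 0) ≠ x * eval y (bs (fun e => v ⟨i, e⟩) 1))
    (hc : ∀ i (z : Fin 2 → K), z ≠ 0 → pt (bs fun e => φ (v ⟨i, e⟩)) z ≠ 0)
    (w : Fin N × Fin 2 → K) (hw : ∀ i, (fun j => w (i, j)) ≠ 0) (m : ℕ) (hm : 0 < m)
    (hper : (pt (ps σ fun e => φ (v e)))^[m] w = w) :
    (jac (ps σ fun e => φ (v e)) w).det ≠ 0 := by
  intro h0
  obtain ⟨i, hi⟩ := det_ps' σ hσ (fun e => φ (v e)) w h0
  obtain ⟨x, hx, hzx⟩ := ha i _ (hw (σ i)) hi
  set P := pt (ps σ fun e => φ (v e)) with hP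
  have hz1 : w (σ i, 1) ≠ 0 := by
    intro h1
    apply hw (σ i)
    funext j
    fin_cases j
    · change w (σ i, 0) = 0
      rw [hzx, h1, mul_zero]
    · exact h1
  have hrat0 : Rat φ (fun j => w (σ i, j)) := by
    refine ⟨w (σ i, 1), ![x, 1], hz1, ?_, ?_⟩
    · intro h1
      have := congrFun h1 1
      simp at this
    · funext j
      fin_cases j
      · change w (σ i, 0) = w (σ i, 1) * φ x
        rw [hzx, mul_comm]
      · change w (σ i, 1) = w (σ i, 1) * φ 1
        rw [map_one, mul_one]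
  have hchain : ∀ t : ℕ, ∀ j, σ^[t] j = σ i → Rat φ (fun a => P^[t] w (j, a)) := by
    intro t
    induction t with
    | zero =>
      intro j hj
      rw [Function.iterate_zero, id] at hj
      subst hj
      exact hrat0
    | succ t ih =>
      intro j hj
      rw [Function.iterate_succ_apply] at hj
      have h1 := ih (σ j) hj
      rw [Function.iterate_succ_apply']
      have h2 := pt_ps σ (fun e => φ (v e)) (P^[t] w) j
      rw [← hP] at h2
      rw [h2]
      exact rat_step φ (fun e => v ⟨j, e⟩) (hc j) h1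
  obtain ⟨r, hr, hord⟩ := exists_order σ (Finite.injective_iff_surjective.2 hσ)
  obtain ⟨L, hL⟩ : ∃ L, m * r = L + 1 := ⟨m * r - 1, by
    have := Nat.mul_pos hm hr
    omega⟩
  have hordL : ∀ j, σ^[m * r] j = j := by
    intro j
    rw [mul_comm, Function.iterate_mul]
    have h1 : σ^[r] = id := funext hord
    rw [h1, Function.iterate_id, id]
  have hperL : P^[m * r] w = w := by
    have h1 : Function.IsPeriodicPt P m w := hper
    exact h1.mul_const r
  have hrat := hchain L (σ (σ i)) (by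
    rw [← Function.iterate_succ_apply, Nat.succ_eq_add_one, ← hL, hordL])
  obtain ⟨l, y, hl, hy, hly⟩ := hrat
  have h3 : (fun j => w (σ i, j)) = pt (bs fun e => φ (v ⟨σ i, e⟩)) fun i => l * φ (y i) := by
    have h2 := pt_ps σ (fun e => φ (v e)) (P^[L] w) (σ i)
    rw [← hP, ← Function.iterate_succ_apply' P L w, Nat.succ_eq_add_one, ← hL, hperL] at h2
    rw [h2, hly]
  have e0 : w (σ i, 0) = l ^ d (σ i) * φ (eval y (bs (fun e => v ⟨σ i, e⟩) 0)) := by
    have h4 := congrFun h3 0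
    change w (σ i, 0) = eval (fun i => l * φ (y i)) (bs (fun e => φ (v ⟨σ i, e⟩)) 0) at h4
    rw [h4]
    exact eval_bs_scale φ (fun e => v ⟨σ i, e⟩) l y 0
  have e1 : w (σ i, 1) = l ^ d (σ i) * φ (eval y (bs (fun e => v ⟨σ i, e⟩) 1)) := by
    have h4 := congrFun h3 1
    change w (σ i, 1) = eval (fun i => l * φ (y i)) (bs (fun e => φ (v ⟨σ i, e⟩)) 1) at h4
    rw [h4]
    exact eval_bs_scale φ (fun e => v ⟨σ i, e⟩) l y 1
  apply hb (σ i) x hx y hy
  apply φ.injective
  rw [map_mul]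
  rw [e0, e1] at hzx
  apply mul_left_cancel₀ (pow_ne_zero (d (σ i)) hl)
  linear_combination hzx

end

theorem charP_resF (p : ℕ) [hp : Fact p.Prime] : CharP (ResF (PadicAlgCl p)) p := by
  have hpres : ((p : ℕ) : ResF (PadicAlgCl p)) = 0 := by
    have h1 : res (PadicAlgCl p) ((p : ℕ) : unitBall (PadicAlgCl p)) = 0 := by
      rw [res_eq_zero_iff]
      have h2 : (((p : ℕ) : unitBall (PadicAlgCl p)) : PadicAlgCl p) =
          (((p : ℚ_[p]) : PadicAlgCl p)) := by
        have h3 : ((algebraMap ℚ_[p] (PadicAlgCl p)) (p : ℚ_[p])) = ((p : ℕ) : PadicAlgCl p) :=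
          map_natCast _ _
        rw [show (((p : ℚ_[p]) : PadicAlgCl p)) = (algebraMap ℚ_[p] (PadicAlgCl p)) (p : ℚ_[p])
          from rfl, h3]
        rfl
      rw [h2, PadicAlgCl.norm_extends]
      exact Padic.norm_p_lt_one
    rw [map_natCast] at h1
    exact h1
  obtain ⟨q, hq⟩ := CharP.exists (ResF (PadicAlgCl p))
  have hqp : q ∣ p := (CharP.cast_eq_zero_iff (ResF (PadicAlgCl p)) q p).1 hpres
  have hq1 : q ≠ 1 := CharP.char_ne_one (ResF (PadicAlgCl p)) q
  have hqe : q = p := (Nat.Prime.eq_one_or_self_of_dvd hp.out q hqp).resolve_left hq1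
  exact hqe ▸ hq

theorem overR_ps (R : Type) [CommRing R] {N : ℕ} {d : Fin N → ℕ} (σ : Fin N → Fin N)
    (v : Co N d → ℤ) : overR R (ps σ v) = ps σ fun e => ((v e : ℤ) : R) := by
  funext q
  unfold overR
  rw [map_ps]
  rfl

/-- The criterion at points with primitive `p`-integral homogeneous coordinates. -/
theorem dml_prim_all {p : ℕ} [hp : Fact p.Prime] {N : ℕ} {d : Fin N → ℕ} (σ : Fin N → Fin N)
    (hσ : Function.Surjective σ) (v : Co N d → ℤ) (C : Set (ZMod p))
    (ha : ∀ (K : Type) [Field K] (φ : ZMod p →+* K) (i) (z : Fin 2 → K), z ≠ 0 →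
      (jac (bs fun e => φ ((v ⟨i, e⟩ : ℤ) : ZMod p)) z).det = 0 → ∃ x ∈ C, z 0 = φ x * z 1)
    (hb : ∀ i, ∀ x ∈ C, ∀ y : Fin 2 → ZMod p, y ≠ 0 →
      eval y (bs (fun e => ((v ⟨i, e⟩ : ℤ) : ZMod p)) 0) ≠
        x * eval y (bs (fun e => ((v ⟨i, e⟩ : ℤ) : ZMod p)) 1))
    (hc : ∀ (K : Type) [Field K] (φ : ZMod p →+* K) (i) (z : Fin 2 → K), z ≠ 0 →
      pt (bs fun e => φ ((v ⟨i, e⟩ : ℤ) : ZMod p)) z ≠ 0)
    (α : Fin N × Fin 2 → ℂ) (τ : ℂ →+* PadicAlgCl p) (hα : ∀ q, ‖τ (α q)‖ ≤ 1)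
    (hα1 : ∀ i, ∃ j, ‖τ (α (i, j))‖ = 1) : DMLAt (ps σ v) α := by
  classical
  haveI := charP_resF p
  let k := ResF (PadicAlgCl p)
  let φ : ZMod p →+* k := ZMod.castHom (dvd_refl p) k
  let b : Fin N × Fin 2 → unitBall (PadicAlgCl p) := fun q => ⟨τ (α q), hα q⟩
  set FO := overR (unitBall (PadicAlgCl p)) (ps σ v) with hFO
  have hres : (fun q => map (res (PadicAlgCl p)) (FO q)) = ps σ fun e => φ ((v e : ℤ) : ZMod p) := by
    have h1 : (fun q => map (res (PadicAlgCl p)) (FO q)) = overR k (ps σ v) := overR_map _ _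
    rw [h1, overR_ps]
    congr 1
    funext e
    exact (map_intCast φ (v e)).symm
  obtain ⟨M, m, hm, hper⟩ := res_orbit_periodic p FO b
  apply dml_core (ps σ v) α τ b (fun q => rfl) M
  intro n hn
  rw [← hFO]
  apply isUnit_of_res_ne_zero
  have hb1 : ∀ i, (fun j => res (PadicAlgCl p) (b (i, j))) ≠ 0 := by
    intro i h0
    obtain ⟨j, hj⟩ := hα1 i
    have h1 := congrFun h0 j
    simp only [Pi.zero_apply] at h1
    rw [res_eq_zero_iff] at h1
    exact absurd hj (ne_of_lt h1)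
  have hw : ∀ i, (fun j => res (PadicAlgCl p) ((pt FO)^[n] b (i, j))) ≠ 0 := by
    intro i
    have h1 := pt_map (res (PadicAlgCl p)) FO b n
    have h2 := orbit_ne' σ (fun e => φ ((v e : ℤ) : ZMod p)) (fun i z hz => hc k φ i z hz)
      (fun q => res (PadicAlgCl p) (b q)) hb1 n i
    rw [hres] at h1
    rw [h1] at h2
    exact h2
  have h3 := hper n hn
  rw [hres] at h3
  have h4 := periodic_det φ σ hσ (fun e => ((v e : ℤ) : ZMod p)) C (fun i z hz h => ha k φ i z hz h)
    hb (fun i z hz => hc k φ i z hz) (fun q => res (PadicAlgCl p) ((pt FO)^[n] b q)) hw m hm h3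
  have h5 := jac_map (res (PadicAlgCl p)) FO ((pt FO)^[n] b)
  rw [hres] at h5
  rw [h5] at h4
  rw [RingHom.map_det]
  exact h4

end Pool.Agent.TH838.DS
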