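import Pool.Agent.TH838.DS.All

set_option autoImplicit false

/-!
Multihomogeneous form of the Dynamical Mordell-Lang property for products of rational functions.
-/

namespace Pool.Agent.TH838.DS.Hm

open MvPolynomial

/-- Indices of the coefficients of `N` pairs of binary forms. -/
abbrev Idx (N : ℕ) (d : Fin N → ℕ) : Type := Σ i : Fin N, Fin 2 × Fin (d i + 1)

/-- The self-map `(P_i) ↦ (f_i (P_(σ i)))` of `(ℙ^1)^N` in homogeneous coordinates, `f_i` being the
rational function `(x : y) ↦ (∑ v_{i,0,e} x^e y^(d i - e) : ∑ v_{i,1,e} x^e y^(d i - e))`. -/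
noncomputable def smap {N : ℕ} {d : Fin N → ℕ} (σ : Fin N → Fin N) (v : Idx N d → ℤ)
    (x : Fin N × Fin 2 → ℂ) : Fin N × Fin 2 → ℂ :=
  fun q => ∑ e : Fin (d q.1 + 1),
    (v ⟨q.1, (q.2, e)⟩ : ℂ) * (x (σ q.1, 0) ^ (e : ℕ) * x (σ q.1, 1) ^ (d q.1 - (e : ℕ)))

/-- A multihomogeneous polynomial. -/
def MultiHom {N : ℕ} (g : MvPolynomial (Fin N × Fin 2) ℂ) : Prop :=
  ∃ e : Fin N → ℕ, ∀ (t : Fin N → ℂ) (x : Fin N × Fin 2 → ℂ),
    eval (fun q => t q.1 * x q) g = (∏ i, t i ^ e i) * eval x g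

/-- The Dynamical Mordell-Lang property of the orbit of the point of `(ℙ^1)^N` with homogeneous
coordinates `α`: for every closed `V ⊆ (ℙ^1)^N` (the common zeros of a set `S` of multihomogeneous
polynomials) the return set is a finite union of arithmetic progressions. -/
def DMLAt {N : ℕ} {d : Fin N → ℕ} (σ : Fin N → Fin N) (v : Idx N d → ℤ)
    (α : Fin N × Fin 2 → ℂ) : Prop :=
  ∀ S : Set (MvPolynomial (Fin N × Fin 2) ℂ), (∀ g ∈ S, MultiHom g) →
    ∃ T : Finset (ℕ × ℕ), {k : ℕ | ∀ g ∈ S, eval ((smap σ v)^[k] α) g = 0} =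
      {k : ℕ | ∃ q ∈ T, ∃ m : ℕ, k = q.1 * m + q.2}

/-- The Dynamical Mordell-Lang property at all points of `(ℙ^1)^N` over the field `L`. -/
def DMLOver {N : ℕ} {d : Fin N → ℕ} (L : Subfield ℂ) (σ : Fin N → Fin N) (v : Idx N d → ℤ) :
    Prop :=
  ∀ α : Fin N × Fin 2 → ℂ, (∀ q, α q ∈ L) → (∀ i, ¬ (α (i, 0) = 0 ∧ α (i, 1) = 0)) →
    DMLAt σ v α

open Pool.Agent.TH838.DS Pool.Agent.H905R3.DML in
theorem cmap_ps {N : ℕ} {d : Fin N → ℕ} (σ : Fin N → Fin N) (v : Idx N d → ℤ) :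
    cmap (ps σ v) = smap σ v := by
  funext x q
  change eval x (map (Int.castRingHom ℂ) (ps σ v q)) = _
  rw [map_ps]
  simp only [ps, bs, eval_rename, eval_bf, smap]
  rfl

/-- The exponents of the scaling factors of the iterates. -/
def DD {N : ℕ} (d : Fin N → ℕ) (σ : Fin N → Fin N) : ℕ → Fin N → ℕ
  | 0 => fun _ => 1
  | k + 1 => fun i => DD d σ k (σ i) * d i

theorem smap_scale {N : ℕ} {d : Fin N → ℕ} (σ : Fin N → Fin N) (v : Idx N d → ℤ) (t : Fin N → ℂ)
    (x : Fin N × Fin 2 → ℂ) :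
    smap σ v (fun q => t q.1 * x q) = fun q => t (σ q.1) ^ d q.1 * smap σ v x q := by
  funext q
  simp only [smap]
  rw [Finset.mul_sum]
  refine Finset.sum_congr rfl fun e _ => ?_
  have he : (e : ℕ) ≤ d q.1 := by omega
  have h : t (σ q.1) ^ d q.1 = t (σ q.1) ^ (e : ℕ) * t (σ q.1) ^ (d q.1 - (e : ℕ)) := by
    rw [← pow_add]
    congr 1
    omega
  rw [h, mul_pow, mul_pow]
  ring

theorem iter_scale {N : ℕ} {d : Fin N → ℕ} (σ : Fin N → Fin N) (v : Idx N d → ℤ) (t : Fin N → ℂ)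
    (x : Fin N × Fin 2 → ℂ) (k : ℕ) :
    (smap σ v)^[k] (fun q => t q.1 * x q) =
      fun q => t (σ^[k] q.1) ^ (DD d σ k q.1) * (smap σ v)^[k] x q := by
  induction k with
  | zero => simp [DD]
  | succ k ih =>
    rw [Function.iterate_succ_apply', ih, smap_scale σ v (fun i => t (σ^[k] i) ^ (DD d σ k i)),
      Function.iterate_succ_apply']
    funext q
    rw [← pow_mul]
    rfl

theorem dml_scale {N : ℕ} {d : Fin N → ℕ} (σ : Fin N → Fin N) (v : Idx N d → ℤ) (t : Fin N → ℂ)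
    (ht : ∀ i, t i ≠ 0)
    (α : Fin N × Fin 2 → ℂ) (h : DMLAt σ v (fun q => t q.1 * α q)) : DMLAt σ v α := by
  intro S hS
  obtain ⟨T, hT⟩ := h S hS
  refine ⟨T, ?_⟩
  rw [← hT]
  ext k
  simp only [Set.mem_ofPred_eq]
  apply forall₂_congr
  intro g hg
  obtain ⟨e, he⟩ := hS g hg
  rw [iter_scale, he (fun i => t (σ^[k] i) ^ (DD d σ k i))]
  have h1 : (∏ i, (t (σ^[k] i) ^ (DD d σ k i)) ^ e i) ≠ 0 :=
    Finset.prod_ne_zero_iff.2 fun i _ => pow_ne_zero _ (pow_ne_zero _ (ht _))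
  constructor
  · intro h2
    rw [h2, mul_zero]
  · intro h2
    exact (mul_eq_zero.1 h2).resolve_left h1

/-! ### Reduction to permutations -/

/-- The polynomials of the iterates. -/
noncomputable def itp {N : ℕ} {d : Fin N → ℕ} (σ : Fin N → Fin N) (v : Idx N d → ℤ) :
    ℕ → Fin N × Fin 2 → MvPolynomial (Fin N × Fin 2) ℂ
  | 0 => fun q => X q
  | k + 1 => fun q => ∑ e : Fin (d q.1 + 1), C (v ⟨q.1, (q.2, e)⟩ : ℂ) *
      (itp σ v k (σ q.1, 0) ^ (e : ℕ) * itp σ v k (σ q.1, 1) ^ (d q.1 - (e : ℕ)))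

theorem eval_itp {N : ℕ} {d : Fin N → ℕ} (σ : Fin N → Fin N) (v : Idx N d → ℤ)
    (x : Fin N × Fin 2 → ℂ) (k : ℕ) (q : Fin N × Fin 2) :
    eval x (itp σ v k q) = (smap σ v)^[k] x q := by
  induction k generalizing q with
  | zero => simp [itp]
  | succ k ih =>
    rw [Function.iterate_succ_apply']
    simp only [itp, map_sum, map_mul, eval_C, map_pow, ih, smap]

theorem eval_aeval {ι : Type} (P : ι → MvPolynomial ι ℂ) (g : MvPolynomial ι ℂ) (x : ι → ℂ) :
    eval x (aeval P g) = eval (fun q => eval x (P q)) g := by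
  induction g using MvPolynomial.induction_on with
  | C a => simp
  | add p q hp hq => rw [map_add, map_add, hp, hq, map_add]
  | mul_X p i hp => rw [map_mul, map_mul, hp, map_mul, aeval_X, eval_X]

theorem multiHom_comp {N : ℕ} {d : Fin N → ℕ} (σ : Fin N → Fin N) (v : Idx N d → ℤ) (m : ℕ)
    {g : MvPolynomial (Fin N × Fin 2) ℂ} (hg : MultiHom g) :
    MultiHom (aeval (itp σ v m) g) := by
  classical
  obtain ⟨e, he⟩ := hg
  refine ⟨fun j => ∑ i, if σ^[m] i = j then DD d σ m i * e i else 0, fun t x => ?_⟩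
  rw [eval_aeval, eval_aeval]
  have h1 : (fun q => eval (fun q => t q.1 * x q) (itp σ v m q)) =
      fun q => t (σ^[m] q.1) ^ (DD d σ m q.1) * (smap σ v)^[m] x q := by
    rw [← iter_scale]
    funext q
    rw [eval_itp]
  have h2 : (fun q => eval x (itp σ v m q)) = (smap σ v)^[m] x := by
    funext q
    rw [eval_itp]
  rw [h1, h2, he (fun i => t (σ^[m] i) ^ (DD d σ m i))]
  congr 1
  have h3 : ∀ j, t j ^ (∑ i, if σ^[m] i = j then DD d σ m i * e i else 0) =
      ∏ i, t j ^ (if σ^[m] i = j then DD d σ m i * e i else 0) := fun j =>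
    (Finset.prod_pow_eq_pow_sum _ _ _).symm
  simp only [h3]
  rw [Finset.prod_comm]
  refine Finset.prod_congr rfl fun i _ => ?_
  rw [Finset.prod_eq_single (σ^[m] i)]
  · rw [if_pos rfl, pow_mul]
  · intro j _ hj
    rw [if_neg (Ne.symm hj), pow_zero]
  · simp

theorem iter_agree {N : ℕ} {d : Fin N → ℕ} (σ : Fin N → Fin N) (v : Idx N d → ℤ)
    (x y : Fin N × Fin 2 → ℂ) (m : ℕ) (i : Fin N)
    (h : ∀ j, x (σ^[m] i, j) = y (σ^[m] i, j)) (j : Fin 2) :
    (smap σ v)^[m] x (i, j) = (smap σ v)^[m] y (i, j) := by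
  induction m generalizing i j with
  | zero => exact h j
  | succ m ih =>
    rw [Function.iterate_succ_apply', Function.iterate_succ_apply']
    have h1 := ih (σ i) h
    simp only [smap]
    rw [h1 0, h1 1]

theorem exists_idem {X : Type} [Finite X] (f : X → X) :
    ∃ m : ℕ, 1 ≤ m ∧ ∀ x, f^[m] (f^[m] x) = f^[m] x := by
  haveI : Finite (X → X) := inferInstance
  obtain ⟨a, b, hab, h⟩ := Finite.exists_ne_map_eq_of_infinite (fun k : ℕ => f^[k])
  wlog hlt : a < b generalizing a b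
  · exact this b a hab.symm h.symm (by omega)
  have h1 : ∀ n, a ≤ n → f^[n + (b - a)] = f^[n] := by
    intro n hn
    obtain ⟨c, rfl⟩ := Nat.exists_eq_add_of_le hn
    have e1 : a + c + (b - a) = c + b := by omega
    rw [e1, Nat.add_comm a c, Function.iterate_add, Function.iterate_add, h]
  have h2 : ∀ k n, a ≤ n → f^[n + k * (b - a)] = f^[n] := by
    intro k
    induction k with
    | zero => intro n _; simp
    | succ k ih =>
      intro n hn
      have e1 : n + (k + 1) * (b - a) = (n + k * (b - a)) + (b - a) := by ring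
      rw [e1, h1 _ (by omega), ih n hn]
  refine ⟨(a + 1) * (b - a), Nat.mul_pos (by omega) (by omega), fun x => ?_⟩
  rw [← Function.iterate_add_apply, h2 (a + 1) _ (by nlinarith [Nat.sub_pos_of_lt hlt])]

/-- From permutations to arbitrary index maps. -/
theorem dml_of_perm {N : ℕ} {d : Fin N → ℕ} (L : Subfield ℂ) (v : Idx N d → ℤ)
    (h : ∀ π : Fin N → Fin N, Function.Surjective π → DMLOver L π v) (σ : Fin N → Fin N) :
    DMLOver L σ v := by
  classical
  obtain ⟨m, hm, hidem⟩ := exists_idem σ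
  let π : Fin N → Fin N := fun i => if σ^[m] i = i then σ i else i
  have hσJ : ∀ i, σ^[m] i = i → σ^[m] (σ i) = σ i := by
    intro i hi
    rw [← Function.iterate_succ_apply, Function.iterate_succ_apply', hi]
  have hinj : Function.Injective π := by
    intro i j hij
    by_cases hi : σ^[m] i = i <;> by_cases hj : σ^[m] j = j
    · simp only [π, if_pos hi, if_pos hj] at hij
      obtain ⟨c, rfl⟩ : ∃ c, m = c + 1 := ⟨m - 1, by omega⟩
      rw [Function.iterate_succ_apply] at hi hj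
      rw [← hi, ← hj, hij]
    · simp only [π, if_pos hi, if_neg hj] at hij
      exact absurd (hij ▸ hσJ i hi) hj
    · simp only [π, if_neg hi, if_pos hj] at hij
      exact absurd (hij ▸ hσJ j hj) hi
    · simpa only [π, if_neg hi, if_neg hj] using hij
  have hsurj : Function.Surjective π := Finite.surjective_of_injective hinj
  intro α hα hα0 S hS
  have hG : ∀ k i, σ^[m] i = i → ∀ j, (smap π v)^[k] α (i, j) = (smap σ v)^[k] α (i, j) := by
    intro k
    induction k with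
    | zero => intro i _ j; rfl
    | succ k ih =>
      intro i hi j
      rw [Function.iterate_succ_apply', Function.iterate_succ_apply']
      have h1 := ih (σ i) (hσJ i hi)
      simp only [smap, π, if_pos hi] at h1 ⊢
      rw [h1 0, h1 1]
  have hF : ∀ k, (smap σ v)^[k + m] α = (smap σ v)^[m] ((smap π v)^[k] α) := by
    intro k
    rw [Nat.add_comm, Function.iterate_add_apply]
    funext q
    obtain ⟨i, j⟩ := q
    apply iter_agree
    intro j
    rw [hG k (σ^[m] i) (hidem i) j]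
  obtain ⟨T, hT⟩ := h π hsurj α hα hα0 ((fun g => aeval (itp σ v m) g) '' S) (by
    rintro _ ⟨g, hg, rfl⟩
    exact multiHom_comp σ v m (hS g hg))
  have hT' : ∀ k, (∀ g ∈ S, eval ((smap σ v)^[k + m] α) g = 0) ↔
      ∃ q ∈ T, ∃ n : ℕ, k = q.1 * n + q.2 := by
    intro k
    have h1 : (∃ q ∈ T, ∃ n : ℕ, k = q.1 * n + q.2) ↔
        k ∈ {k : ℕ | ∀ g ∈ (fun g => aeval (itp σ v m) g) '' S,
          eval ((smap π v)^[k] α) g = 0} := by
      rw [hT]
      rfl
    rw [h1]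
    simp only [Set.mem_ofPred_eq, Set.forall_mem_image]
    apply forall₂_congr
    intro g _
    rw [eval_aeval, hF k]
    have h2 : (fun q => eval ((smap π v)^[k] α) (itp σ v m q)) =
        (smap σ v)^[m] ((smap π v)^[k] α) := by
      funext q
      rw [eval_itp]
    rw [h2]
  refine ⟨T.image (fun q => (q.1, q.2 + m)) ∪
    ((Finset.range m).filter fun n => ∀ g ∈ S, eval ((smap σ v)^[n] α) g = 0).image
      (fun n => (0, n)), ?_⟩
  ext n
  simp only [Set.mem_ofPred_eq, Finset.mem_union, Finset.mem_image, Finset.mem_filter,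
    Finset.mem_range]
  constructor
  · intro hn
    rcases Nat.lt_or_ge n m with hnm | hnm
    · exact ⟨(0, n), Or.inr ⟨n, ⟨hnm, hn⟩, rfl⟩, 0, by simp⟩
    · obtain ⟨k, rfl⟩ : ∃ k, n = k + m := ⟨n - m, by omega⟩
      obtain ⟨q, hq, c, hc⟩ := (hT' k).1 hn
      refine ⟨(q.1, q.2 + m), Or.inl ⟨q, hq, rfl⟩, c, ?_⟩
      simp only
      omega
  · rintro ⟨q, hq | hq, c, hc⟩
    · obtain ⟨q', hq', rfl⟩ := hq
      simp only at hc
      have h1 : n = (q'.1 * c + q'.2) + m := by omega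
      rw [h1]
      exact (hT' _).2 ⟨q', hq', c, rfl⟩
    · obtain ⟨n', ⟨_, hn'⟩, rfl⟩ := hq
      simp only [zero_mul, zero_add] at hc
      rw [hc]
      exact hn'


open Pool.Agent.TH838.DS Pool.Agent.H905R3.DML Pool.Agent.H936R2 in
theorem all_points {p : ℕ} [Fact p.Prime] {N : ℕ} {d : Fin N → ℕ} (v : Idx N d → ℤ)
    (C : Set (ZMod p))
    (ha : ∀ (K : Type) [Field K] (φ : ZMod p →+* K) (i) (z : Fin 2 → K), z ≠ 0 →
      (jac (bs fun e => φ ((v ⟨i, e⟩ : ℤ) : ZMod p)) z).det = 0 → ∃ x ∈ C, z 0 = φ x * z 1)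
    (hb : ∀ i, ∀ x ∈ C, ∀ y : Fin 2 → ZMod p, y ≠ 0 →
      eval y (bs (fun e => ((v ⟨i, e⟩ : ℤ) : ZMod p)) 0) ≠
        x * eval y (bs (fun e => ((v ⟨i, e⟩ : ℤ) : ZMod p)) 1))
    (hc : ∀ (K : Type) [Field K] (φ : ZMod p →+* K) (i) (z : Fin 2 → K), z ≠ 0 →
      pt (bs fun e => φ ((v ⟨i, e⟩ : ℤ) : ZMod p)) z ≠ 0) (σ : Fin N → Fin N) :
    DMLOver ⊤ σ v := by
  classical
  apply dml_of_perm ⊤ v
  intro π hπ α _ hα0
  obtain ⟨τ⟩ := exists_embedding p
  have h1 : ∀ i, ∃ j, α (i, j) ≠ 0 ∧ ∀ j', ‖τ (α (i, j'))‖ ≤ ‖τ (α (i, j))‖ := by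
    intro i
    obtain ⟨j, hj⟩ := Finite.exists_max (fun j => ‖τ (α (i, j))‖)
    refine ⟨j, ?_, hj⟩
    intro h0
    apply hα0 i
    rw [h0, map_zero, norm_zero] at hj
    exact ⟨(map_eq_zero τ).1 (norm_le_zero_iff.1 (hj 0)),
      (map_eq_zero τ).1 (norm_le_zero_iff.1 (hj 1))⟩
  choose j hj0 hj using h1
  have hpos : ∀ i, 0 < ‖τ (α (i, j i))‖ := fun i =>
    norm_pos_iff.2 fun h => hj0 i ((map_eq_zero τ).1 h)
  apply dml_scale π v (fun i => (α (i, j i))⁻¹) (fun i => inv_ne_zero (hj0 i))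
  have h2 := dml_prim_all (p := p) π hπ v C ha hb hc (fun q => (α (q.1, j q.1))⁻¹ * α q) τ (by
      intro q
      rw [map_mul, map_inv₀, norm_mul, norm_inv, inv_mul_le_iff₀ (hpos q.1), mul_one]
      exact hj q.1 q.2) (by
      intro i
      refine ⟨j i, ?_⟩
      simp only
      rw [inv_mul_cancel₀ (hj0 i), map_one, norm_one])
  intro S _
  obtain ⟨T, hT⟩ := h2 S
  refine ⟨T, ?_⟩
  rw [cmap_ps] at hT
  exact hT

open Pool.Agent.TH838.DS Pool.Agent.H905R3.DML in
/-- Tuples of quadratic rational functions which are good modulo `p`. -/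
theorem good_all {p : ℕ} [Fact p.Prime] (hp2 : p ≠ 2) {N : ℕ} (v : Idx N (fun _ => 2) → ℤ)
    (hv : GoodT fun (i : Fin N) (e : Fin 2 × Fin (2 + 1)) => ((v ⟨i, e⟩ : ℤ) : ZMod p))
    (σ : Fin N → Fin N) : DMLOver ⊤ σ v := by
  classical
  obtain ⟨A, x, hc, hA, hx, hU⟩ := hv
  have h2 : (2 : ZMod p) ≠ 0 := by
    intro h
    have h3 : ((2 : ℕ) : ZMod p) = 0 := by exact_mod_cast h
    rw [ZMod.natCast_eq_zero_iff] at h3
    have := (Nat.prime_dvd_prime_iff_eq Fact.out Nat.prime_two).1 h3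
    exact hp2 this
  have hφ : ∀ (K : Type) [Field K] (φ : ZMod p →+* K) (i : Fin N),
      (fun e : Fin 2 × Fin (2 + 1) => φ ((v ⟨i, e⟩ : ℤ) : ZMod p)) =
        co (fun a b => φ (A i a b)) (fun a => φ (x i a)) := by
    intro K _ φ i
    rw [← map_co, ← hc i]
  have hA' : ∀ (K : Type) [Field K] (φ : ZMod p →+* K) (i : Fin N),
      φ (A i 0 0) * φ (A i 1 1) - φ (A i 0 1) * φ (A i 1 0) ≠ 0 := by
    intro K _ φ i
    rw [← map_mul, ← map_mul, ← map_sub]
    exact (map_ne_zero φ).2 (hA i)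
  have hx' : ∀ (K : Type) [Field K] (φ : ZMod p →+* K) (i : Fin N), φ (x i 0) ≠ φ (x i 1) :=
    fun K _ φ i h => hx i (φ.injective h)
  have h2' : ∀ (K : Type) [Field K] (φ : ZMod p →+* K), (2 : K) ≠ 0 := by
    intro K _ φ h
    apply h2
    apply φ.injective
    rw [map_zero, map_ofNat]
    exact h
  apply all_points (p := p) v {c | ∃ i m, c = x i m}
  · intro K _ φ i z hz h
    rw [hφ K φ i] at h
    obtain ⟨m, hm⟩ := crit_co (h2' K φ) (hA' K φ i) (hx' K φ i) h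
    exact ⟨x i m, ⟨i, m, rfl⟩, hm⟩
  · rintro i c ⟨i', m, rfl⟩ y hy
    have h3 : (fun e : Fin 2 × Fin (2 + 1) => ((v ⟨i, e⟩ : ℤ) : ZMod p)) = co (A i) (x i) := hc i
    rw [h3]
    exact val_co (hA i) (hx i) (hU i' i m) hy
  · intro K _ φ i z hz h
    rw [hφ K φ i] at h
    exact hz (zero_co (hA' K φ i) (hx' K φ i) h)

end Pool.Agent.TH838.DS.Hm
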