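import Pool.Agent.TH838.DS.Quad

set_option autoImplicit false

/-!
Counting the tuples of quadratic rational functions modulo `p` all of whose critical points are
rational and are not values of any member of the tuple at a rational point.
-/

namespace Pool.Agent.TH838.DS

/-- All critical points of the `c j` are rational and no critical point is a value of a `c j` at a
rational point (in terms of the parameters). -/
def GoodT {ι : Type} {p : ℕ} [Fact p.Prime] (c : ι → Fin 2 × Fin (2 + 1) → ZMod p) : Prop :=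
  ∃ (A : ι → Fin 2 → Fin 2 → ZMod p) (x : ι → Fin 2 → ZMod p), (∀ j, c j = co (A j) (x j)) ∧
    (∀ j, A j 0 0 * A j 1 1 - A j 0 1 * A j 1 0 ≠ 0) ∧ (∀ j, x j 0 ≠ x j 1) ∧
    ∀ i j m, InU (A j) (x i m)

section

variable {p : ℕ} [Fact p.Prime]

/-- the matrices having `(x : 1)` in the allowed set -/
def SX (x : ZMod p) : Set (Fin 2 → Fin 2 → ZMod p) :=
  {A | A 0 0 * A 1 1 - A 0 1 * A 1 0 ≠ 0 ∧ InU A x}

theorem card_SX (hp : 5 ≤ p) (x : ZMod p) : (p : ℝ) ^ 4 / 4 ≤ (Nat.card (SX x) : ℝ) := by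
  classical
  let f : {s : ZMod p // ¬ IsSquare s} × (ZMod p)ˣ × ZMod p × (ZMod p)ˣ → SX x := fun q =>
    ⟨![![x * q.2.2.1 + (q.2.2.2 : ZMod p), (q.2.1 : ZMod p) * x -
        q.1.1 * (x * q.2.2.1 + (q.2.2.2 : ZMod p))],
      ![q.2.2.1, (q.2.1 : ZMod p) - q.1.1 * q.2.2.1]], by
      constructor
      · have h1 : (q.2.1 : ZMod p) * (q.2.2.2 : ZMod p) ≠ 0 :=
          mul_ne_zero (Units.ne_zero _) (Units.ne_zero _)
        intro h2
        apply h1
        simp only [Matrix.cons_val_zero, Matrix.cons_val_one] at h2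
        linear_combination h2
      · refine ⟨q.1.1, q.2.1, q.1.2, Units.ne_zero _, ?_, ?_⟩
        · simp only [Matrix.cons_val_zero, Matrix.cons_val_one]
          ring
        · simp only [Matrix.cons_val_zero, Matrix.cons_val_one]
          ring⟩
  have hf : Function.Injective f := by
    rintro ⟨⟨s, hs⟩, l, w, t⟩ ⟨⟨s', hs'⟩, l', w', t'⟩ h
    have h1 := congrArg Subtype.val h
    have h00 := congrFun (congrFun h1 0) 0
    have h01 := congrFun (congrFun h1 0) 1
    have h10 := congrFun (congrFun h1 1) 0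
    have h11 := congrFun (congrFun h1 1) 1
    simp only [f, Matrix.cons_val_zero, Matrix.cons_val_one] at h00 h01 h10 h11
    subst h10
    have ht : t = t' := Units.ext (by linear_combination h00)
    subst ht
    have e1 : (s - s') * (t : ZMod p) = 0 := by linear_combination x * h11 - h01
    have e2 : s = s' := sub_eq_zero.1 ((mul_eq_zero.1 e1).resolve_right (Units.ne_zero t))
    subst e2
    have e3 : l = l' := Units.ext (by linear_combination h11)
    subst e3
    rfl
  have h1 := Nat.card_le_card_of_injective f hf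
  rw [Nat.card_prod, Nat.card_prod, Nat.card_prod, Nat.card_zmod,
    Nat.card_eq_fintype_card (α := (ZMod p)ˣ), ZMod.card_units] at h1
  have h2 := card_nonsq (p := p) (by omega)
  have h3 : (p - 1) ^ 3 * p ≤ 2 * Nat.card (SX x) := by
    calc (p - 1) ^ 3 * p = (p - 1) * ((p - 1) * (p * (p - 1))) := by ring
      _ ≤ (2 * Nat.card {s : ZMod p // ¬ IsSquare s}) * ((p - 1) * (p * (p - 1))) :=
        Nat.mul_le_mul_right _ h2
      _ = 2 * (Nat.card {s : ZMod p // ¬ IsSquare s} * ((p - 1) * (p * (p - 1)))) := by ring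
      _ ≤ 2 * Nat.card (SX x) := Nat.mul_le_mul_left _ h1
  have h4 : (((p - 1 : ℕ) : ℝ)) ^ 3 * p ≤ 2 * (Nat.card (SX x) : ℝ) := by exact_mod_cast h3
  rw [Nat.cast_sub (by omega)] at h4
  push_cast at h4
  have hp1 : (5 : ℝ) ≤ p := by exact_mod_cast hp
  have h5 : (p : ℝ) ^ 3 / 2 ≤ ((p : ℝ) - 1) ^ 3 := by
    have h6 : (4 / 5 * (p : ℝ)) ≤ (p : ℝ) - 1 := by linarith
    have h7 : (4 / 5 * (p : ℝ)) ^ 3 ≤ ((p : ℝ) - 1) ^ 3 :=
      pow_le_pow_left₀ (by positivity) h6 3
    have h8 : (4 / 5 * (p : ℝ)) ^ 3 = 64 / 125 * (p : ℝ) ^ 3 := by ring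
    have h9 : (0 : ℝ) ≤ (p : ℝ) ^ 3 := by positivity
    nlinarith
  have h6 : (p : ℝ) ^ 3 / 2 * p ≤ ((p : ℝ) - 1) ^ 3 * p :=
    mul_le_mul_of_nonneg_right h5 (by positivity)
  have h7 : (p : ℝ) ^ 3 / 2 * p = 2 * ((p : ℝ) ^ 4 / 4) := by ring
  linarith

variable {ι : Type} [Fintype ι] [DecidableEq ι]

open Classical in
/-- the allowed points -/
noncomputable def UU (A : ι → Fin 2 → Fin 2 → ZMod p) : Finset (ZMod p) :=
  Finset.univ.filter fun x => ∀ j, A j ∈ SX x

open Classical in
/-- the allowed pairs -/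
noncomputable def PP (A : ι → Fin 2 → Fin 2 → ZMod p) : Finset (Fin 2 → ZMod p) :=
  Finset.univ.filter fun y => y 0 ∈ UU A ∧ y 1 ∈ UU A ∧ y 0 ≠ y 1

theorem card_PP (A : ι → Fin 2 → Fin 2 → ZMod p) :
    (PP A).card = (UU A).card * (UU A).card - (UU A).card := by
  classical
  rw [← Finset.offDiag_card]
  apply Finset.card_bij' (fun y _ => (y 0, y 1)) (fun q _ => ![q.1, q.2])
  · intro y hy
    simp only [PP, Finset.mem_filter, Finset.mem_univ, true_and] at hy
    rw [Finset.mem_offDiag]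
    exact hy
  · intro q hq
    rw [Finset.mem_offDiag] at hq
    simp only [PP, Finset.mem_filter, Finset.mem_univ, true_and, Matrix.cons_val_zero,
      Matrix.cons_val_one]
    exact hq
  · intro y _
    funext j
    fin_cases j <;> rfl
  · intro q _
    rfl

theorem sum_UU (hp : 5 ≤ p) :
    (p : ℝ) * ((p : ℝ) ^ 4 / 4) ^ Fintype.card ι ≤
      ∑ A : ι → Fin 2 → Fin 2 → ZMod p, ((UU A).card : ℝ) := by
  classical
  have h1 : ∀ A : ι → Fin 2 → Fin 2 → ZMod p, ((UU A).card : ℝ) =
      ∑ x : ZMod p, if ∀ j, A j ∈ SX x then (1 : ℝ) else 0 := by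
    intro A
    rw [UU, Finset.sum_boole]
  simp only [h1]
  rw [Finset.sum_comm]
  have h2 : ∀ x : ZMod p, ((p : ℝ) ^ 4 / 4) ^ Fintype.card ι ≤
      ∑ A : ι → Fin 2 → Fin 2 → ZMod p, if ∀ j, A j ∈ SX x then (1 : ℝ) else 0 := by
    intro x
    rw [Finset.sum_boole]
    have h3 : (Finset.univ.filter fun A : ι → Fin 2 → Fin 2 → ZMod p => ∀ j, A j ∈ SX x) =
        Fintype.piFinset fun _ : ι => (Finset.univ.filter fun B => B ∈ SX x) := by
      ext A
      simp
    rw [h3, Fintype.card_piFinset, Finset.prod_const, Finset.card_univ]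
    have h4 : (Finset.univ.filter fun B : Fin 2 → Fin 2 → ZMod p => B ∈ SX x).card =
        Nat.card (SX x) := by
      rw [← Nat.card_eq_finsetCard]
      apply Nat.card_congr
      apply Equiv.subtypeEquivRight
      intro B
      simp
    rw [h4, Nat.cast_pow]
    exact pow_le_pow_left₀ (by positivity) (card_SX hp x) _
  calc (p : ℝ) * ((p : ℝ) ^ 4 / 4) ^ Fintype.card ι
      = ∑ x : ZMod p, ((p : ℝ) ^ 4 / 4) ^ Fintype.card ι := by
        rw [Finset.sum_const, Finset.card_univ, ZMod.card, nsmul_eq_mul]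
    _ ≤ _ := Finset.sum_le_sum fun x _ => h2 x

theorem sum_pow_UU (hp : 5 ≤ p) :
    (p : ℝ) ^ (6 * Fintype.card ι) / 16 ^ (Fintype.card ι * Fintype.card ι) ≤
      ∑ A : ι → Fin 2 → Fin 2 → ZMod p, ((UU A).card : ℝ) ^ (2 * Fintype.card ι) := by
  classical
  set k := Fintype.card ι with hk
  have hp0 : (0 : ℝ) < p := by
    have : 0 < p := by omega
    exact_mod_cast this
  set Q : ℝ := (p : ℝ) ^ (4 * k) with hQ
  have hQ0 : 0 < Q := by positivity
  have hcard : ((Finset.univ : Finset (ι → Fin 2 → Fin 2 → ZMod p)).card : ℝ) = Q := by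
    rw [Finset.card_univ]
    simp only [Fintype.card_pi, Finset.prod_const, Finset.card_univ, ZMod.card, Fintype.card_fin]
    push_cast
    rw [← pow_mul, ← pow_mul, hQ, hk]
    congr 1
    ring
  have h1 := Real.pow_arith_mean_le_arith_mean_pow
    (Finset.univ : Finset (ι → Fin 2 → Fin 2 → ZMod p)) (fun _ => 1 / Q)
    (fun A => ((UU A).card : ℝ)) (fun _ _ => by positivity) (by
      rw [Finset.sum_const, nsmul_eq_mul, hcard]
      field_simp) (fun _ _ => by positivity) (2 * k)
  rw [← Finset.mul_sum, ← Finset.mul_sum] at h1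
  have h2 := sum_UU (ι := ι) hp
  rw [← hk] at h2
  have h3 : (p : ℝ) / 4 ^ k ≤ 1 / Q * ∑ A : ι → Fin 2 → Fin 2 → ZMod p, ((UU A).card : ℝ) := by
    rw [one_div, inv_mul_eq_div, le_div_iff₀ hQ0]
    refine le_trans (le_of_eq ?_) h2
    rw [hQ, div_pow, ← pow_mul]
    field_simp
  have h4 := (pow_le_pow_left₀ (by positivity) h3 (2 * k)).trans h1
  rw [one_div, inv_mul_eq_div, le_div_iff₀ hQ0] at h4
  refine le_trans (le_of_eq ?_) h4
  rw [hQ, div_pow, div_mul_eq_mul_div, ← pow_add, ← pow_mul]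
  have e1 : (4 : ℝ) ^ (k * (2 * k)) = 16 ^ (k * k) := by
    rw [show k * (2 * k) = 2 * (k * k) by ring, pow_mul]
    norm_num
  rw [e1]
  congr 2
  ring

/-- the parameters of the good tuples -/
abbrev TT (p : ℕ) [Fact p.Prime] (ι : Type) [Fintype ι] [DecidableEq ι] : Type :=
  Σ A : ι → Fin 2 → Fin 2 → ZMod p, {x : ι → Fin 2 → ZMod p // ∀ j, x j ∈ PP A}

theorem card_TT (hp : 5 ≤ p) [Nonempty ι] :
    ((p : ℝ) ^ (6 * Fintype.card ι) / 16 ^ (Fintype.card ι * Fintype.card ι) -
      (p : ℝ) ^ (4 * Fintype.card ι)) / 2 ^ Fintype.card ι ≤ (Nat.card (TT p ι) : ℝ) := by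
  classical
  set k := Fintype.card ι with hk
  have h1 : Nat.card (TT p ι) = ∑ A : ι → Fin 2 → Fin 2 → ZMod p, (PP A).card ^ k := by
    rw [Nat.card_sigma]
    refine Finset.sum_congr rfl fun A _ => ?_
    have h3 : Nat.card {x : ι → Fin 2 → ZMod p // ∀ j, x j ∈ PP A} =
        (Fintype.piFinset fun _ : ι => PP A).card := by
      rw [← Nat.card_eq_finsetCard]
      apply Nat.card_congr
      apply Equiv.subtypeEquivRight
      intro x
      rw [Fintype.mem_piFinset]
    rw [h3, Fintype.card_piFinset, Finset.prod_const, Finset.card_univ]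
  have h2 : ∀ A : ι → Fin 2 → Fin 2 → ZMod p,
      (((UU A).card : ℝ) ^ (2 * k) - 1) / 2 ^ k ≤ ((PP A).card : ℝ) ^ k := by
    intro A
    rw [card_PP]
    set u := (UU A).card with hu
    rcases Nat.lt_or_ge u 2 with hu2 | hu2
    · refine le_trans ?_ (by positivity)
      apply div_nonpos_of_nonpos_of_nonneg _ (by positivity)
      have : (u : ℝ) ≤ 1 := by
        have : u ≤ 1 := by omega
        exact_mod_cast this
      have := pow_le_one₀ (n := 2 * k) (by positivity : (0 : ℝ) ≤ u) this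
      linarith
    · have hle : u ≤ u * u := Nat.le_mul_self u
      rw [Nat.cast_sub hle]
      push_cast
      have hu3 : (2 : ℝ) ≤ u := by exact_mod_cast hu2
      have h3 : (u : ℝ) ^ 2 / 2 ≤ (u : ℝ) * u - u := by nlinarith
      have h4 := pow_le_pow_left₀ (by positivity) h3 k
      refine le_trans ?_ h4
      rw [div_pow, ← pow_mul]
      apply div_le_div_of_nonneg_right _ (by positivity)
      linarith
  rw [h1]
  push_cast
  calc ((p : ℝ) ^ (6 * k) / 16 ^ (k * k) - (p : ℝ) ^ (4 * k)) / 2 ^ k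
      ≤ ((∑ A : ι → Fin 2 → Fin 2 → ZMod p, ((UU A).card : ℝ) ^ (2 * k)) -
          (p : ℝ) ^ (4 * k)) / 2 ^ k := by
        apply div_le_div_of_nonneg_right _ (by positivity)
        have := sum_pow_UU (ι := ι) hp
        rw [← hk] at this
        linarith
    _ = ∑ A : ι → Fin 2 → Fin 2 → ZMod p, (((UU A).card : ℝ) ^ (2 * k) - 1) / 2 ^ k := by
        rw [← Finset.sum_div, Finset.sum_sub_distrib]
        congr 2
        rw [Finset.sum_const, nsmul_eq_mul, mul_one, Finset.card_univ]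
        simp only [Fintype.card_pi, Finset.prod_const, Finset.card_univ, ZMod.card,
          Fintype.card_fin]
        push_cast
        rw [← pow_mul, ← pow_mul, hk]
        congr 1
        ring
    _ ≤ _ := Finset.sum_le_sum fun A _ => h2 A

theorem good_of_param [Nonempty ι] (t : TT p ι) :
    GoodT fun j => co (t.1 j) (t.2.1 j) := by
  classical
  obtain ⟨A, x, hx⟩ := t
  have h1 : ∀ i m j, A j ∈ SX (x i m) := by
    intro i m
    have h2 := hx i
    simp only [PP, UU, Finset.mem_filter, Finset.mem_univ, true_and] at h2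
    fin_cases m
    · exact h2.1
    · exact h2.2.1
  refine ⟨A, x, fun j => rfl, fun j => (h1 j 0 j).1, fun j => ?_, fun i j m => (h1 i m j).2⟩
  have h2 := hx j
  simp only [PP, UU, Finset.mem_filter, Finset.mem_univ, true_and] at h2
  exact h2.2.2

theorem card_good (hp : 5 ≤ p) [Nonempty ι] :
    (Nat.card (TT p ι) : ℝ) ≤
      (Nat.card {c : ι → Fin 2 × Fin (2 + 1) → ZMod p // GoodT c} : ℝ) *
        2 ^ Fintype.card ι := by
  classical
  have h2 : (2 : ZMod p) ≠ 0 := by
    intro h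
    have h3 : ((2 : ℕ) : ZMod p) = 0 := by exact_mod_cast h
    rw [ZMod.natCast_eq_zero_iff] at h3
    have := Nat.le_of_dvd (by norm_num) h3
    omega
  let f : TT p ι → {c : ι → Fin 2 × Fin (2 + 1) → ZMod p // GoodT c} × (ι → Bool) := fun t =>
    (⟨fun j => co (t.1 j) (t.2.1 j), good_of_param t⟩,
      fun j => decide ((t.2.1 j 0).val < (t.2.1 j 1).val))
  have hf : Function.Injective f := by
    rintro ⟨A, x, hx⟩ ⟨A', x', hx'⟩ h
    have hc : ∀ j, co (A j) (x j) = co (A' j) (x' j) := fun j =>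
      congrFun (congrArg Subtype.val (congrArg Prod.fst h)) j
    have hb : ∀ j, decide ((x j 0).val < (x j 1).val) = decide ((x' j 0).val < (x' j 1).val) :=
      fun j => congrFun (congrArg Prod.snd h) j
    have hA : ∀ j, A j 0 0 * A j 1 1 - A j 0 1 * A j 1 0 ≠ 0 := by
      intro j
      have h3 := hx j
      simp only [PP, UU, Finset.mem_filter, Finset.mem_univ, true_and] at h3
      exact (h3.1 j).1
    have hne : ∀ j, x j 0 ≠ x j 1 := by
      intro j
      have h3 := hx j
      simp only [PP, Finset.mem_filter, Finset.mem_univ, true_and] at h3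
      exact h3.2.2
    have hne' : ∀ j, x' j 0 ≠ x' j 1 := by
      intro j
      have h3 := hx' j
      simp only [PP, Finset.mem_filter, Finset.mem_univ, true_and] at h3
      exact h3.2.2
    have key : ∀ j, x' j = x j ∧ A' j = A j := by
      intro j
      rcases co_inj (hne j) h2 (hA j) (hne' j) (hc j) with h4 | ⟨h4, h5⟩
      · exact h4
      · exfalso
        have h6 := hb j
        rw [h4, h5] at h6
        have h7 : (x j 0).val ≠ (x j 1).val := fun h8 => hne j (ZMod.val_injective p h8)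
        by_cases h8 : (x j 0).val < (x j 1).val
        · rw [decide_eq_true h8] at h6
          have := of_decide_eq_true h6.symm
          omega
        · rw [decide_eq_false h8] at h6
          have := of_decide_eq_false h6.symm
          omega
    have h4 : x' = x := funext fun j => (key j).1
    have h5 : A' = A := funext fun j => (key j).2
    subst h4
    subst h5
    rfl
  have h1 := Nat.card_le_card_of_injective f hf
  rw [Nat.card_prod, Nat.card_eq_fintype_card (α := ι → Bool), Fintype.card_fun,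
    Fintype.card_bool] at h1
  exact_mod_cast h1

/-- A positive proportion of the tuples is good. -/
theorem count_good [Nonempty ι] (hp : 2 * 16 ^ Fintype.card ι ≤ p) :
    1 / (2 * 4 ^ Fintype.card ι * 16 ^ (Fintype.card ι * Fintype.card ι)) *
        (p : ℝ) ^ (6 * Fintype.card ι) ≤
      (Nat.card {c : ι → Fin 2 × Fin (2 + 1) → ZMod p // GoodT c} : ℝ) := by
  classical
  have hk1 : 1 ≤ Fintype.card ι := Fintype.card_pos
  have hp5 : 5 ≤ p := by
    have : 16 ^ 1 ≤ 16 ^ Fintype.card ι := Nat.pow_le_pow_right (by norm_num) hk1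
    omega
  have h1 := card_TT (ι := ι) hp5
  have h2 := card_good (ι := ι) hp5
  set k := Fintype.card ι with hk
  set G : ℝ := (Nat.card {c : ι → Fin 2 × Fin (2 + 1) → ZMod p // GoodT c} : ℝ) with hG
  have h3 : (p : ℝ) ^ (4 * k) ≤ (p : ℝ) ^ (6 * k) / (2 * 16 ^ (k * k)) := by
    rw [le_div_iff₀ (by positivity)]
    have e1 : (p : ℝ) ^ (6 * k) = (p : ℝ) ^ (4 * k) * (p : ℝ) ^ (2 * k) := by
      rw [← pow_add]; congr 1; ring
    rw [e1]
    apply mul_le_mul_of_nonneg_left _ (by positivity)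
    have e2 : (2 * 16 ^ k : ℝ) ≤ p := by exact_mod_cast hp
    have e3 : (1 : ℝ) ≤ p := by
      have : 1 ≤ p := by omega
      exact_mod_cast this
    calc (2 * 16 ^ (k * k) : ℝ) ≤ (2 : ℝ) ^ k * 16 ^ (k * k) := by
          apply mul_le_mul_of_nonneg_right _ (by positivity)
          calc (2 : ℝ) = 2 ^ 1 := by norm_num
            _ ≤ 2 ^ k := pow_le_pow_right₀ (by norm_num) hk1
      _ = (2 * 16 ^ k) ^ k := by rw [mul_pow, ← pow_mul]
      _ ≤ (p : ℝ) ^ k := pow_le_pow_left₀ (by positivity) e2 k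
      _ ≤ (p : ℝ) ^ (2 * k) := pow_le_pow_right₀ e3 (by omega)
  have h4 : (p : ℝ) ^ (6 * k) / (2 * 16 ^ (k * k)) ≤
      (p : ℝ) ^ (6 * k) / 16 ^ (k * k) - (p : ℝ) ^ (4 * k) := by
    have e1 : (p : ℝ) ^ (6 * k) / 16 ^ (k * k) =
        (p : ℝ) ^ (6 * k) / (2 * 16 ^ (k * k)) + (p : ℝ) ^ (6 * k) / (2 * 16 ^ (k * k)) := by
      field_simp
      norm_num
    linarith
  have h5 : (p : ℝ) ^ (6 * k) / (2 * 16 ^ (k * k)) / 2 ^ k ≤ G * 2 ^ k :=
    (div_le_div_of_nonneg_right h4 (by positivity)).trans (h1.trans h2)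
  rw [div_le_iff₀ (by positivity)] at h5
  have e4 : (4 : ℝ) ^ k = 2 ^ k * 2 ^ k := by
    rw [← mul_pow]; norm_num
  rw [one_div, inv_mul_eq_div, div_le_iff₀ (by positivity), e4]
  rw [div_le_iff₀ (by positivity)] at h5
  calc (p : ℝ) ^ (6 * k) ≤ G * 2 ^ k * 2 ^ k * (2 * 16 ^ (k * k)) := h5
    _ = G * (2 * (2 ^ k * 2 ^ k) * 16 ^ (k * k)) := by ring

end

end Pool.Agent.TH838.DS
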