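import Pool.Agent.TH838.DS.Sys

set_option autoImplicit false

/-!
Quadratic rational functions with rational critical points: `A ∘ (l₁², l₂²)`.
-/

namespace Pool.Agent.TH838.DS

open MvPolynomial Pool.Agent.H936R2 Pool.Agent.H905R3.DML

/-- The coefficients of the pair of forms `A (l₁², l₂²)`, `l_i = X - x_i Y`. -/
def co {R : Type} [CommRing R] (A : Fin 2 → Fin 2 → R) (x : Fin 2 → R) : Fin 2 × Fin (2 + 1) → R :=
  fun q => if (q.2 : ℕ) = 0 then A q.1 0 * x 0 ^ 2 + A q.1 1 * x 1 ^ 2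
    else if (q.2 : ℕ) = 1 then -2 * (A q.1 0 * x 0 + A q.1 1 * x 1) else A q.1 0 + A q.1 1

theorem map_co {R S : Type} [CommRing R] [CommRing S] (φ : R →+* S) (A : Fin 2 → Fin 2 → R)
    (x : Fin 2 → R) :
    (fun q => φ (co A x q)) = co (fun i j => φ (A i j)) (fun i => φ (x i)) := by
  funext q
  unfold co
  split_ifs <;> simp [map_ofNat]

theorem eval_co {R : Type} [CommRing R] (A : Fin 2 → Fin 2 → R) (x : Fin 2 → R) (z : Fin 2 → R)
    (j : Fin 2) : eval z (bs (co A x) j) =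
      A j 0 * (z 0 - x 0 * z 1) ^ 2 + A j 1 * (z 0 - x 1 * z 1) ^ 2 := by
  rw [bs, eval_bf, Fin.sum_univ_three]
  simp [co]
  ring

theorem det_co {R : Type} [CommRing R] (A : Fin 2 → Fin 2 → R) (x : Fin 2 → R) (z : Fin 2 → R) :
    (jac (bs (co A x)) z).det =
      4 * (A 0 0 * A 1 1 - A 0 1 * A 1 0) * (x 0 - x 1) *
        ((z 0 - x 0 * z 1) * (z 0 - x 1 * z 1)) := by
  rw [Matrix.det_fin_two]
  simp only [jac, bs]
  rw [eval_d0, eval_d0, eval_d1, eval_d1]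
  rw [Fin.sum_univ_three, Fin.sum_univ_three, Fin.sum_univ_three, Fin.sum_univ_three]
  simp [co]
  ring

section

variable {K : Type} [Field K]

/-- critical points -/
theorem crit_co (h2 : (2 : K) ≠ 0) {A : Fin 2 → Fin 2 → K} {x : Fin 2 → K}
    (hA : A 0 0 * A 1 1 - A 0 1 * A 1 0 ≠ 0) (hx : x 0 ≠ x 1) {z : Fin 2 → K}
    (h : (jac (bs (co A x)) z).det = 0) : ∃ m, z 0 = x m * z 1 := by
  rw [det_co] at h
  have h4 : (4 : K) ≠ 0 := by
    have : (4 : K) = 2 * 2 := by norm_num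
    rw [this]
    exact mul_ne_zero h2 h2
  have h3 := (mul_eq_zero.1 h).resolve_left (mul_ne_zero (mul_ne_zero h4 hA) (sub_ne_zero.2 hx))
  rcases mul_eq_zero.1 h3 with h5 | h5
  · exact ⟨0, sub_eq_zero.1 h5⟩
  · exact ⟨1, sub_eq_zero.1 h5⟩

theorem solve_A {A : Fin 2 → Fin 2 → K} (hA : A 0 0 * A 1 1 - A 0 1 * A 1 0 ≠ 0) {u v : K}
    (h0 : A 0 0 * u + A 0 1 * v = 0) (h1 : A 1 0 * u + A 1 1 * v = 0) : u = 0 ∧ v = 0 := by
  constructor
  · apply (mul_eq_zero.1 (?_ : (A 0 0 * A 1 1 - A 0 1 * A 1 0) * u = 0)).resolve_left hA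
    linear_combination A 1 1 * h0 - A 0 1 * h1
  · apply (mul_eq_zero.1 (?_ : (A 0 0 * A 1 1 - A 0 1 * A 1 0) * v = 0)).resolve_left hA
    linear_combination A 0 0 * h1 - A 1 0 * h0

theorem lines {x : Fin 2 → K} (hx : x 0 ≠ x 1) {z : Fin 2 → K} (h0 : z 0 - x 0 * z 1 = 0)
    (h1 : z 0 - x 1 * z 1 = 0) : z = 0 := by
  have h2 : (x 1 - x 0) * z 1 = 0 := by linear_combination h0 - h1
  have h3 : z 1 = 0 := (mul_eq_zero.1 h2).resolve_left (sub_ne_zero.2 (Ne.symm hx))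
  have h4 : z 0 = 0 := by rw [h3] at h0; simpa using h0
  funext j
  fin_cases j
  · exact h4
  · exact h3

/-- no common zero -/
theorem zero_co {A : Fin 2 → Fin 2 → K} {x : Fin 2 → K}
    (hA : A 0 0 * A 1 1 - A 0 1 * A 1 0 ≠ 0) (hx : x 0 ≠ x 1) {z : Fin 2 → K}
    (h : pt (bs (co A x)) z = 0) : z = 0 := by
  have h0 : eval z (bs (co A x) 0) = 0 := congrFun h 0
  have h1 : eval z (bs (co A x) 1) = 0 := congrFun h 1
  rw [eval_co] at h0 h1
  obtain ⟨h2, h3⟩ := solve_A hA h0 h1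
  exact lines hx (pow_eq_zero_iff (two_ne_zero) |>.1 h2) (pow_eq_zero_iff (two_ne_zero) |>.1 h3)

/-- The point `(x : 1)` is `A (s : 1)` with a nonsquare `s`. -/
def InU (A : Fin 2 → Fin 2 → K) (x : K) : Prop :=
  ∃ s l : K, ¬ IsSquare s ∧ l ≠ 0 ∧ A 0 0 * s + A 0 1 = l * x ∧ A 1 0 * s + A 1 1 = l

/-- such a point is not a value -/
theorem val_co {A : Fin 2 → Fin 2 → K} {x : Fin 2 → K}
    (hA : A 0 0 * A 1 1 - A 0 1 * A 1 0 ≠ 0) (hx : x 0 ≠ x 1) {c : K} (hc : InU A c)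
    {y : Fin 2 → K} (hy : y ≠ 0) :
    eval y (bs (co A x) 0) ≠ c * eval y (bs (co A x) 1) := by
  obtain ⟨s, l, hs, hl, h0, h1⟩ := hc
  rw [eval_co, eval_co]
  intro h
  set a := y 0 - x 0 * y 1 with ha
  set b := y 0 - x 1 * y 1 with hb
  have h2 : (A 0 0 * A 1 1 - A 0 1 * A 1 0) * (a ^ 2 - s * b ^ 2) = 0 := by
    linear_combination (A 1 0 * s + A 1 1) * h - (A 1 0 * a ^ 2 + A 1 1 * b ^ 2) * h0 +
      c * (A 1 0 * a ^ 2 + A 1 1 * b ^ 2) * h1
  have h3 : a ^ 2 = s * b ^ 2 := sub_eq_zero.1 ((mul_eq_zero.1 h2).resolve_left hA)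
  by_cases hb0 : b = 0
  · rw [hb0] at h3
    have ha0 : a = 0 := by
      rw [zero_pow two_ne_zero, mul_zero] at h3
      exact pow_eq_zero_iff two_ne_zero |>.1 h3
    exact hy (lines hx ha0 hb0)
  · apply hs
    refine ⟨a / b, ?_⟩
    field_simp
    linear_combination -h3

/-- The parameters are determined up to order. -/
theorem co_inj {A A' : Fin 2 → Fin 2 → K} {x x' : Fin 2 → K} (hx : x 0 ≠ x 1)
    (h2 : (2 : K) ≠ 0) (hA : A 0 0 * A 1 1 - A 0 1 * A 1 0 ≠ 0)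
    (hx' : x' 0 ≠ x' 1) (h : co A x = co A' x') :
    (x' = x ∧ A' = A) ∨ (x' 0 = x 1 ∧ x' 1 = x 0) := by
  have hroot : ∀ m, ∃ n, x' m = x n := by
    intro m
    have h3 : (jac (bs (co A x)) ![x' m, 1]).det = 0 := by
      rw [h, det_co]
      fin_cases m <;> simp
    obtain ⟨n, hn⟩ := crit_co h2 hA hx h3
    refine ⟨n, ?_⟩
    simpa using hn
  have hA' : x' = x → A' = A := by
    intro hxx
    subst hxx
    funext j i
    have e2 := congrFun h (j, 2)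
    have e1 := congrFun h (j, 1)
    have v2 : (((2 : Fin (2 + 1)) : ℕ)) = 2 := rfl
    have v1 : (((1 : Fin (2 + 1)) : ℕ)) = 1 := rfl
    simp only [co, v2, v1, if_true, if_false, one_ne_zero, OfNat.ofNat_ne_zero,
      OfNat.ofNat_ne_one] at e1 e2
    have e3 : A j 0 * x' 0 + A j 1 * x' 1 = A' j 0 * x' 0 + A' j 1 * x' 1 := by
      apply mul_left_cancel₀ (neg_ne_zero.2 h2)
      exact e1
    have e4 : (A' j 0 - A j 0) * (x' 0 - x' 1) = 0 := by
      linear_combination -e3 + x' 1 * e2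
    have e5 : A' j 0 = A j 0 :=
      sub_eq_zero.1 ((mul_eq_zero.1 e4).resolve_right (sub_ne_zero.2 hx'))
    fin_cases i
    · exact e5
    · change A' j 1 = A j 1
      linear_combination -e2 - e5
  obtain ⟨n0, h0⟩ := hroot 0
  obtain ⟨n1, h1⟩ := hroot 1
  fin_cases n0 <;> fin_cases n1
  · exact absurd (h0.trans h1.symm) hx'
  · left
    have hxx : x' = x := by
      funext j
      fin_cases j
      · exact h0
      · exact h1
    exact ⟨hxx, hA' hxx⟩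
  · right
    exact ⟨h0, h1⟩
  · exact absurd (h0.trans h1.symm) hx'

end

end Pool.Agent.TH838.DS
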